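import Pool.Agent.TH424.MSOGood

set_option autoImplicit false

/-!
# Circuits of a matroid given by two height functions
-/

namespace Pool.Agent.TH424

universe u

open Set

variable {α : Type u}

/-- height data presenting a finite matroid as a lattice path matroid -/
structure LPData (M : Matroid α) where
  n : ℕ
  pos : α → ℕ
  hP : ℕ → ℕ
  hQ : ℕ → ℕ
  inj : Set.InjOn pos M.E
  lt : ∀ x ∈ M.E, pos x < n
  surj : ∀ p < n, ∃ x ∈ M.E, pos x = p
  P0 : hP 0 = hQ 0
  Pn : hP n = hQ n
  le : ∀ k ≤ n, hP k ≤ hQ k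
  Pstep : ∀ k < n, hP k ≤ hP (k+1) ∧ hP (k+1) ≤ hP k + 1
  Qstep : ∀ k < n, hQ k ≤ hQ (k+1) ∧ hQ (k+1) ≤ hQ k + 1
  indep : ∀ I ⊆ M.E, (M.Indep I ↔ ∀ i j, i ≤ j → j ≤ n →
    (I ∩ {x | i ≤ pos x ∧ pos x < j}).ncard + hP i ≤ hQ j)

namespace LPData

variable {M : Matroid α} (D : LPData M)

/-- an interval of positions -/
def J (i j : ℕ) : Set α := {x | i ≤ D.pos x ∧ D.pos x < j}

theorem mem_J {i j : ℕ} {x : α} : x ∈ D.J i j ↔ i ≤ D.pos x ∧ D.pos x < j := Iff.rfl

theorem indep' {I : Set α} (hI : I ⊆ M.E) : M.Indep I ↔ ∀ i j, i ≤ j → j ≤ D.n →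
    (I ∩ D.J i j).ncard + D.hP i ≤ D.hQ j := D.indep I hI

theorem Pmono {i j : ℕ} (hij : i ≤ j) (hj : j ≤ D.n) : D.hP i ≤ D.hP j := by
  induction j, hij using Nat.le_induction with
  | base => exact le_refl _
  | succ k hk ih => exact (ih (by omega)).trans (D.Pstep k (by omega)).1

theorem Qmono {i j : ℕ} (hij : i ≤ j) (hj : j ≤ D.n) : D.hQ i ≤ D.hQ j := by
  induction j, hij using Nat.le_induction with
  | base => exact le_refl _
  | succ k hk ih => exact (ih (by omega)).trans (D.Qstep k (by omega)).1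

/-- the interval `[i,j)` witnesses that the circuit `C` is dependent -/
def V (C : Set α) (i j : ℕ) : Prop :=
  i ≤ j ∧ j ≤ D.n ∧ C ⊆ D.J i j ∧ C.ncard + D.hP i = D.hQ j + 1

variable [M.Finite] {C : Set α}

omit D in
theorem fin {X : Set α} (h : X ⊆ M.E) : X.Finite := M.ground_finite.subset h

theorem circ_viol (hC : M.IsCircuit C) {i j : ℕ} (hij : i ≤ j) (hj : j ≤ D.n)
    (h : D.hQ j < (C ∩ D.J i j).ncard + D.hP i) : D.V C i j := by
  have hCE := hC.subset_ground
  have hCf : C.Finite := fin hCE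
  have hsub : C ⊆ D.J i j := by
    intro c hc
    by_contra hcJ
    have h1 := (D.indep' ((sdiff_subset).trans hCE)).1 (hC.sdiff_singleton_indep hc) i j hij hj
    have h2 : (C \ {c}) ∩ D.J i j = C ∩ D.J i j := by
      ext x
      simp only [mem_inter_iff, mem_sdiff, mem_singleton_iff]
      constructor
      · rintro ⟨⟨h3, _⟩, h4⟩; exact ⟨h3, h4⟩
      · rintro ⟨h3, h4⟩
        refine ⟨⟨h3, fun h5 => hcJ (h5 ▸ h4)⟩, h4⟩
    rw [h2] at h1
    omega
  rw [inter_eq_left.2 hsub] at h
  obtain ⟨c, hc⟩ := hC.nonempty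
  have h1 := (D.indep' ((sdiff_subset).trans hCE)).1 (hC.sdiff_singleton_indep hc) i j hij hj
  rw [inter_eq_left.2 (sdiff_subset.trans hsub)] at h1
  have h2 := ncard_sdiff_singleton_add_one hc hCf
  exact ⟨hij, hj, hsub, by omega⟩

theorem exists_V (hC : M.IsCircuit C) : ∃ i j, D.V C i j := by
  have h := hC.not_indep
  rw [D.indep' hC.subset_ground] at h
  push Not at h
  obtain ⟨i, j, hij, hj, h⟩ := h
  exact ⟨i, j, D.circ_viol hC hij hj h⟩

/-- proper subsets of a circuit satisfy the bounds -/
theorem sub_bound (hC : M.IsCircuit C) {S : Set α} (hS : S ⊂ C) {i j : ℕ} (hij : i ≤ j)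
    (hj : j ≤ D.n) (hSJ : S ⊆ D.J i j) : S.ncard + D.hP i ≤ D.hQ j := by
  have h1 := (D.indep' (hS.subset.trans hC.subset_ground)).1 (hC.ssubset_indep hS) i j hij hj
  rwa [inter_eq_left.2 hSJ] at h1

theorem V_union (hC : M.IsCircuit C) {i j i' j' : ℕ} (h : D.V C i j) (h' : D.V C i' j') :
    D.V C (min i i') (max j j') := by
  obtain ⟨hij, hj, hs, he⟩ := h
  obtain ⟨hij', hj', hs', he'⟩ := h'
  have hCf : C.Finite := fin hC.subset_ground
  obtain ⟨c, hc⟩ := hC.nonempty
  have hc1 := hs hc
  have hc2 := hs' hc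
  rw [mem_J] at hc1 hc2
  have hle : max i i' ≤ min j j' := by omega
  have hsub : C \ {c} ⊆ D.J (max i i') (min j j') := by
    intro x hx
    have h1 := hs hx.1
    have h2 := hs' hx.1
    rw [mem_J] at *
    omega
  have hb := D.sub_bound hC (sdiff_singleton_ssubset.2 hc) hle (by omega) hsub
  have h2 := ncard_sdiff_singleton_add_one hc hCf
  have eP : D.hP (min i i') + D.hP (max i i') = D.hP i + D.hP i' := by
    rcases le_total i i' with h | h
    · rw [min_eq_left h, max_eq_right h]
    · rw [min_eq_right h, max_eq_left h]; omega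
  have eQ : D.hQ (min j j') + D.hQ (max j j') = D.hQ j + D.hQ j' := by
    rcases le_total j j' with h | h
    · rw [min_eq_left h, max_eq_right h]
    · rw [min_eq_right h, max_eq_left h]; omega
  refine D.circ_viol hC (by omega) (by omega) ?_
  have hsub2 : C ⊆ D.J (min i i') (max j j') := by
    intro x hx
    have h1 := hs hx
    rw [mem_J] at *
    omega
  rw [inter_eq_left.2 hsub2]
  omega

/-- the largest interval witnessing that `C` is dependent -/
def VMax (C : Set α) (i j : ℕ) : Prop :=
  D.V C i j ∧ ∀ i' j', D.V C i' j' → i ≤ i' ∧ j' ≤ j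

theorem exists_VMax (hC : M.IsCircuit C) : ∃ i j, D.VMax C i j := by
  classical
  obtain ⟨i, j, h⟩ := D.exists_V hC
  have hP : ∃ j, ∃ i, D.V C i j := ⟨j, i, h⟩
  have hP' : ∃ i, ∃ j, D.V C i j := ⟨i, j, h⟩
  let i0 := Nat.find hP'
  obtain ⟨j1, hj1⟩ := Nat.find_spec hP'
  let j0 := Nat.findGreatest (fun j => ∃ i, D.V C i j) D.n
  obtain ⟨i1, hi1⟩ : ∃ i, D.V C i j0 :=
    Nat.findGreatest_spec (P := fun j => ∃ i, D.V C i j) h.2.1 ⟨i, h⟩
  have hmin : ∀ i' j', D.V C i' j' → i0 ≤ i' := fun i' j' h' => Nat.find_min' hP' ⟨j', h'⟩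
  have hmax : ∀ i' j', D.V C i' j' → j' ≤ j0 := fun i' j' h' =>
    Nat.le_findGreatest h'.2.1 ⟨i', h'⟩
  refine ⟨i0, j0, ?_, fun i' j' h' => ⟨hmin i' j' h', hmax i' j' h'⟩⟩
  have h3 := D.V_union hC hj1 hi1
  have e1 : min i0 i1 = i0 := min_eq_left (hmin _ _ hi1)
  have e2 : max j1 j0 = j0 := max_eq_right (hmax _ _ hj1)
  change D.V C (min i0 i1) (max j1 j0) at h3
  rwa [e1, e2] at h3

theorem mem_closure {i j : ℕ} (hC : M.IsCircuit C) (hV : D.VMax C i j) {x : α} :
    x ∈ M.closure C ↔ (x ∈ M.E ∧ x ∈ D.J i j) ∨ M.IsLoop x := by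
  have hCE := hC.subset_ground
  have hCf : C.Finite := fin hCE
  obtain ⟨⟨hij, hj, hs, he⟩, hmax⟩ := hV
  obtain ⟨c, hc⟩ := hC.nonempty
  have hI := hC.sdiff_singleton_indep hc
  have hIE : C \ {c} ⊆ M.E := sdiff_subset.trans hCE
  have hIf : (C \ {c}).Finite := hCf.subset sdiff_subset
  have hcard := ncard_sdiff_singleton_add_one hc hCf
  have hcl : M.closure C = M.closure (C \ {c}) := (hC.closure_sdiff_singleton_eq c).symm
  rw [hcl]
  constructor
  · intro hx
    have hxE : x ∈ M.E := M.mem_ground_of_mem_closure hx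
    by_contra hcon
    push Not at hcon
    obtain ⟨h1, h2⟩ := hcon
    have hxJ : x ∉ D.J i j := fun h => h1 hxE h
    have hxI : x ∉ C \ {c} := fun h => hxJ (hs h.1)
    have hxI2 : x ≠ c := fun h => hxJ (h ▸ hs hc)
    have hdep : ¬ M.Indep (insert x (C \ {c})) := by
      intro h
      rw [hI.insert_indep_iff_of_notMem hxI] at h
      exact h.2 hx
    rw [D.indep' (insert_subset hxE hIE)] at hdep
    push Not at hdep
    obtain ⟨i', j', hij', hj', hb⟩ := hdep
    have hbI := (D.indep' hIE).1 hI i' j' hij' hj'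
    have hxJ' : x ∈ D.J i' j' := by
      by_contra hxJ'
      rw [insert_inter_of_notMem hxJ'] at hb
      omega
    rw [insert_inter_of_mem hxJ', ncard_insert_of_notMem (fun h => hxI h.1)
      (hIf.subset inter_subset_left)] at hb
    have hcJ' : c ∉ D.J i' j' := by
      intro hcJ'
      have hC' : C ∩ D.J i' j' = insert c ((C \ {c}) ∩ D.J i' j') := by
        ext y
        simp only [mem_inter_iff, mem_insert_iff, mem_sdiff, mem_singleton_iff]
        constructor
        · rintro ⟨h3, h4⟩
          by_cases h5 : y = c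
          · exact Or.inl h5
          · exact Or.inr ⟨⟨h3, h5⟩, h4⟩
        · rintro (rfl | h3)
          · exact ⟨hc, hcJ'⟩
          · exact ⟨h3.1.1, h3.2⟩
      have hVC : D.V C i' j' := by
        apply D.circ_viol hC hij' hj'
        rw [hC', ncard_insert_of_notMem (fun h => h.1.2 rfl) (hIf.subset inter_subset_left)]
        omega
      have := hmax _ _ hVC
      apply hxJ
      rw [mem_J] at *
      omega
    by_cases htouch : max i i' ≤ min j j'
    · have hsame : (C \ {c}) ∩ D.J i' j' = (C \ {c}) ∩ D.J (max i i') (min j j') := by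
        ext y
        simp only [mem_inter_iff, mem_J]
        constructor
        · rintro ⟨h3, h4⟩
          have := hs h3.1
          rw [mem_J] at this
          exact ⟨h3, by omega⟩
        · rintro ⟨h3, h4⟩
          exact ⟨h3, by omega⟩
      have hb2 := (D.indep' hIE).1 hI (max i i') (min j j') htouch (by omega)
      rw [← hsame] at hb2
      have eP : D.hP (min i i') + D.hP (max i i') = D.hP i + D.hP i' := by
        rcases le_total i i' with h | h
        · rw [min_eq_left h, max_eq_right h]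
        · rw [min_eq_right h, max_eq_left h]; omega
      have eQ : D.hQ (min j j') + D.hQ (max j j') = D.hQ j + D.hQ j' := by
        rcases le_total j j' with h | h
        · rw [min_eq_left h, max_eq_right h]
        · rw [min_eq_right h, max_eq_left h]; omega
      have hVu : D.V C (min i i') (max j j') := by
        refine D.circ_viol hC (by omega) (by omega) ?_
        have hsub2 : C ⊆ D.J (min i i') (max j j') := by
          intro x hx
          have h1 := hs hx
          rw [mem_J] at *
          omega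
        rw [inter_eq_left.2 hsub2]
        omega
      have := hmax _ _ hVu
      apply hxJ
      rw [mem_J] at *
      omega
    · have hemp : (C \ {c}) ∩ D.J i' j' = ∅ := by
        ext y
        simp only [mem_inter_iff, mem_J, mem_empty_iff_false, iff_false]
        rintro ⟨h3, h4⟩
        have := hs h3.1
        rw [mem_J] at this
        omega
      rw [hemp, ncard_empty] at hb
      apply h2
      rw [← Matroid.singleton_dep, Matroid.dep_iff]
      refine ⟨?_, by simpa using hxE⟩
      intro hind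
      have := (D.indep' (by simpa using hxE)).1 hind i' j' hij' hj'
      rw [inter_eq_left.2 (by simpa using hxJ'), ncard_singleton] at this
      omega
  · rintro (⟨hxE, hxJ⟩ | hloop)
    · by_cases hxI : x ∈ C \ {c}
      · exact M.mem_closure_of_mem hxI
      · by_contra hcl2
        have hind : M.Indep (insert x (C \ {c})) :=
          (hI.insert_indep_iff_of_notMem hxI).2 ⟨hxE, hcl2⟩
        have h3 := (D.indep' (insert_subset hxE hIE)).1 hind i j hij hj
        rw [inter_eq_left.2 (insert_subset hxJ (sdiff_subset.trans hs)),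
          ncard_insert_of_notMem hxI hIf] at h3
        omega
    · exact hloop.mem_closure _

end LPData

end Pool.Agent.TH424
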