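import Pool.Agent.TH424.LPData

set_option autoImplicit false

/-!
# Lattice path matroids satisfy the sentence
-/

namespace Pool.Agent.TH424

universe u

open Set

variable {α : Type u}

theorem Sep.inter {M : Matroid α} {K L : Set α} (hK : Sep M K) (hL : Sep M L) : Sep M (K ∩ L) := by
  intro C hC
  rcases hK C hC with h | h
  · rcases hL C hC with h' | h'
    · exact Or.inl (subset_inter h h')
    · exact Or.inr (h'.mono_right inter_subset_right)
  · exact Or.inr (h.mono_right inter_subset_left)

theorem Sep.compl {M : Matroid α} {K : Set α} (hK : Sep M K) : Sep M (M.E \ K) := by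
  intro C hC
  rcases hK C hC with h | h
  · exact Or.inr (disjoint_sdiff_right.mono_left h)
  · exact Or.inl (fun x hx => ⟨hC.subset_ground hx, fun h' => disjoint_left.1 h hx h'⟩)

/-- a circuit meeting a separator lies inside it -/
theorem Sep.sub {M : Matroid α} {K C : Set α} (hK : Sep M K) (hC : M.IsCircuit C) {x : α}
    (hx : x ∈ C) (hxK : x ∈ K) : C ⊆ K := by
  rcases hK C hC with h | h
  · exact h
  · exact absurd hxK (disjoint_left.1 h hx)

/-- a component containing a loop is a single loop -/
theorem Comp.loop {M : Matroid α} {K : Set α} (hK : Comp M K) {x : α} (hx : x ∈ K)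
    (hl : M.IsLoop x) : K ⊆ {x} := by
  apply hK.2.2.2 {x} (by simpa using hx) (by simp)
  intro C hC
  by_cases h : x ∈ C
  · left
    have h1 : M.IsCircuit {x} := Matroid.singleton_isCircuit.2 hl
    rw [h1.eq_of_subset_isCircuit hC (by simpa using h)]
  · right
    simpa using h

namespace LPData

variable {M : Matroid α} (D : LPData M) [M.Finite] {C K : Set α}

/-- the closure of a circuit of a component, inside the component -/
theorem cl_eq (hK : Comp M K) (hC : M.IsCircuit C) (hCK : C ⊆ K) {i j : ℕ} (hV : D.VMax C i j) :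
    M.closure C ∩ K = K ∩ D.J i j := by
  ext x
  rw [mem_inter_iff, mem_inter_iff, D.mem_closure hC hV]
  constructor
  · rintro ⟨h1 | h1, h2⟩
    · exact ⟨h2, h1.2⟩
    · refine ⟨h2, ?_⟩
      have h3 := hK.loop h2 h1
      obtain ⟨c, hc⟩ := hC.nonempty
      have h4 : c = x := by simpa using h3 (hCK hc)
      exact h4 ▸ hV.1.2.2.1 hc
  · rintro ⟨h1, h2⟩
    exact ⟨Or.inl ⟨hK.1 h1, h2⟩, h1⟩

/-- if the two height functions agree at `k` then the first `k` positions form a separator -/
theorem sep_pre {k : ℕ} (hk : k ≤ D.n) (h : D.hP k = D.hQ k) : Sep M {x | D.pos x < k} := by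
  intro C hC
  obtain ⟨i, j, hij, hj, hs, he⟩ := D.exists_V hC
  have hCf : C.Finite := fin hC.subset_ground
  rcases Nat.lt_or_ge i k with hik | hik
  · rcases Nat.lt_or_ge k j with hkj | hkj
    · by_contra hcon
      push Not at hcon
      obtain ⟨h1, h2⟩ := hcon
      obtain ⟨x, hxC, hx⟩ := not_subset.1 h1
      obtain ⟨y, hyC, hy⟩ := not_disjoint_iff.1 h2
      have s1 : C ∩ D.J i k ⊂ C := by
        refine ⟨inter_subset_left, fun h => hx ?_⟩
        exact (h hxC).2.2
      have s2 : C ∩ D.J k j ⊂ C := by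
        refine ⟨inter_subset_left, fun h => ?_⟩
        have := (h hyC).2.1
        simp only [mem_ofPred_eq] at hy
        omega
      have b1 := D.sub_bound hC s1 hik.le hk inter_subset_right
      have b2 := D.sub_bound hC s2 hkj.le hj inter_subset_right
      have hu : C = (C ∩ D.J i k) ∪ (C ∩ D.J k j) := by
        ext z
        simp only [mem_union, mem_inter_iff, mem_J]
        constructor
        · intro hz
          have := hs hz
          rw [mem_J] at this
          by_cases hzk : D.pos z < k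
          · exact Or.inl ⟨hz, this.1, hzk⟩
          · exact Or.inr ⟨hz, by omega, this.2⟩
        · rintro (h | h) <;> exact h.1
      have hd : Disjoint (C ∩ D.J i k) (C ∩ D.J k j) := by
        rw [disjoint_left]
        rintro z ⟨_, h1⟩ ⟨_, h2⟩
        rw [mem_J] at *
        omega
      have hc := ncard_union_eq hd (hCf.subset inter_subset_left) (hCf.subset inter_subset_left)
      rw [← hu] at hc
      omega
    · left
      intro x hx
      have := hs hx
      rw [mem_J] at this
      simp only [mem_ofPred_eq]; omega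
  · right
    rw [disjoint_left]
    intro x hx hx'
    have := hs hx
    rw [mem_J] at this
    simp only [mem_ofPred_eq] at hx'; omega

/-- North steps of the upper path in an interval -/
def BQ (i j : ℕ) : Set α := {x | x ∈ M.E ∧ x ∈ D.J i j ∧ D.hQ (D.pos x + 1) = D.hQ (D.pos x) + 1}

omit [M.Finite] in
theorem BQ_sub (i j : ℕ) : D.BQ i j ⊆ M.E := fun _ h => h.1

theorem ncard_BQ {i j : ℕ} (hij : i ≤ j) (hj : j ≤ D.n) : (D.BQ i j).ncard + D.hQ i = D.hQ j := by
  induction j, hij using Nat.le_induction with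
  | base =>
    have : D.BQ i i = ∅ := by
      ext x; simp only [BQ, mem_J, mem_ofPred_eq, mem_empty_iff_false, iff_false]; omega
    rw [this, ncard_empty]; omega
  | succ k hk ih =>
    have ih' := ih (by omega)
    obtain ⟨x, hxE, hx⟩ := D.surj k (by omega)
    have hst := D.Qstep k (by omega)
    by_cases hs : D.hQ (k + 1) = D.hQ k + 1
    · have : D.BQ i (k+1) = insert x (D.BQ i k) := by
        ext y
        simp only [BQ, mem_J, mem_ofPred_eq, mem_insert_iff]
        constructor
        · rintro ⟨h1, h2, h3⟩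
          by_cases hy : D.pos y = k
          · left; exact D.inj h1 hxE (by rw [hy, hx])
          · right; exact ⟨h1, by omega, h3⟩
        · rintro (rfl | ⟨h1, h2, h3⟩)
          · exact ⟨hxE, by omega, by rw [hx]; exact hs⟩
          · exact ⟨h1, by omega, h3⟩
      rw [this, ncard_insert_of_notMem _ (fin (D.BQ_sub i k))]
      · omega
      · rintro ⟨_, h2, _⟩
        rw [mem_J] at h2; omega
    · have : D.BQ i (k+1) = D.BQ i k := by
        ext y
        simp only [BQ, mem_J, mem_ofPred_eq]
        constructor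
        · rintro ⟨h1, h2, h3⟩
          by_cases hy : D.pos y = k
          · rw [hy] at h3; exact absurd h3 hs
          · exact ⟨h1, by omega, h3⟩
        · rintro ⟨h1, h2, h3⟩
          exact ⟨h1, by omega, h3⟩
      rw [this]; omega

theorem BQ_inter {i j s t : ℕ} (hij : i ≤ j) (hj : j ≤ D.n) :
    (D.BQ s t ∩ D.J i j).ncard + D.hQ i ≤ D.hQ j := by
  rw [← D.ncard_BQ hij hj]
  have : D.BQ s t ∩ D.J i j ⊆ D.BQ i j := fun x hx => ⟨hx.1.1, hx.2, hx.1.2.2⟩
  have := ncard_le_ncard this (fin (D.BQ_sub i j))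
  omega

theorem BQ_indep (s t : ℕ) : M.Indep (D.BQ s t) := by
  rw [D.indep' (D.BQ_sub s t)]
  intro i j hij hj
  have h1 := D.BQ_inter (s := s) (t := t) hij hj
  have h2 := D.le i (hij.trans hj)
  omega

/-- The circuit `C₁`: if `C` is a circuit of the component `K`, with maximal interval `[i,j)`, and
some element of `K` comes before `i`, some element at or after `j`, then `K` contains a circuit
whose closure in `K` is the set of elements of `K` before `j`. -/
theorem exists_left (hK : Comp M K) (hC : M.IsCircuit C) (hCK : C ⊆ K) {i j : ℕ}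
    (hV : D.VMax C i j) {a b : α} (ha : a ∈ K) (hb : b ∈ K) (hamin : ∀ x ∈ K, D.pos a ≤ D.pos x)
    (hai : D.pos a < i) (hbj : j ≤ D.pos b) :
    ∃ s C₁, s ≤ D.pos a ∧ D.hP s = D.hQ s ∧ (∀ k, s < k → k ≤ D.pos b → D.hP k < D.hQ k) ∧
      M.IsCircuit C₁ ∧ C₁ ⊆ K ∧ D.BQ s j ⊆ C₁ ∧ C₁.ncard + D.hP s = D.hQ j + 1 ∧
      M.closure C₁ ∩ K = {x | x ∈ K ∧ D.pos x < j} := by
  classical
  obtain ⟨⟨hij, hj, hs, he⟩, hmax⟩ := id hV
  have hbn : D.pos b < D.n := D.lt b (hK.1 hb)
  obtain ⟨c0, hc0⟩ := hC.nonempty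
  have hc0J := hs hc0
  rw [mem_J] at hc0J
  -- the last meeting point at or before `a`
  let s := Nat.findGreatest (fun k => D.hP k = D.hQ k) (D.pos a)
  have hs0 : D.hP s = D.hQ s :=
    Nat.findGreatest_spec (P := fun k => D.hP k = D.hQ k) (Nat.zero_le _) D.P0
  have hsa : s ≤ D.pos a := Nat.findGreatest_le _
  have hlt : ∀ k, s < k → k ≤ D.pos b → D.hP k < D.hQ k := by
    intro k hsk hkb
    have hle := D.le k (by omega)
    rcases Nat.lt_or_ge (D.pos a) k with hak | hak
    · rcases Nat.lt_or_ge (D.hP k) (D.hQ k) with h | h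
      · exact h
      · exfalso
        have heq : D.hP k = D.hQ k := le_antisymm hle h
        have hsep := (D.sep_pre (by omega) heq).inter hK.2.2.1
        have := hK.2.2.2 _ inter_subset_right ⟨a, hak, ha⟩ hsep hb
        have h3 : D.pos b < k := this.1
        omega
    · have : ¬ D.hP k = D.hQ k := fun h =>
        Nat.findGreatest_is_greatest (P := fun k => D.hP k = D.hQ k) hsk hak h
      omega
  have hsE := hC.subset_ground
  have hij' : i < j := by omega
  have hstepj : D.hQ (j - 1 + 1) = D.hQ (j-1) := by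
    have hst := D.Qstep (j-1) (by omega)
    by_contra hne
    have h1 : D.hQ (j - 1 + 1) = D.hQ (j-1) + 1 := by omega
    rw [Nat.sub_add_cancel (by omega)] at h1
    -- then `[i, j-1)` also witnesses dependence
    have hVj : D.V C i (j-1) := by
      apply D.circ_viol hC (by omega) (by omega)
      have hCf : C.Finite := fin hsE
      obtain ⟨x, hxE, hx⟩ := D.surj (j-1) (by omega)
      have h2 : C ⊆ insert x (C ∩ D.J i (j-1)) := by
        intro y hy
        have hyJ := hs hy
        rw [mem_J] at hyJ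
        by_cases hyj : D.pos y = j - 1
        · left; exact D.inj (hsE hy) hxE (by omega)
        · right; exact ⟨hy, by rw [mem_J]; omega⟩
      have h3 := ncard_le_ncard h2 ((hCf.subset inter_subset_left).insert x)
      have h4 := ncard_insert_le x (C ∩ D.J i (j-1))
      omega
    have := hVj.2.2.2
    omega
  rw [Nat.sub_add_cancel (by omega)] at hstepj
  obtain ⟨z, hzE, hz⟩ := D.surj (j-1) (by omega)
  have hzB : z ∉ D.BQ s j := by
    rintro ⟨_, _, h3⟩
    rw [hz, Nat.sub_add_cancel (by omega)] at h3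
    omega
  have hBf : (D.BQ s j).Finite := fin (D.BQ_sub s j)
  have hBcard := D.ncard_BQ (i := s) (j := j) (by omega) hj
  let C₁ : Set α := insert z (D.BQ s j)
  have hC₁E : C₁ ⊆ M.E := insert_subset hzE (D.BQ_sub s j)
  have hC₁f : C₁.Finite := fin hC₁E
  have hC₁card : C₁.ncard = (D.BQ s j).ncard + 1 := ncard_insert_of_notMem hzB hBf
  have hzJ : z ∈ D.J s j := by rw [mem_J]; omega
  have hC₁J : C₁ ⊆ D.J s j := insert_subset hzJ (fun x hx => hx.2.1)
  have hdep : ¬ M.Indep C₁ := by
    intro h
    have := (D.indep' hC₁E).1 h s j (by omega) hj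
    rw [inter_eq_left.2 hC₁J] at this
    omega
  have hC₁ : M.IsCircuit C₁ := by
    rw [Matroid.isCircuit_iff_dep_forall_sdiff_singleton_indep]
    refine ⟨⟨hdep, hC₁E⟩, fun c hc => ?_⟩
    rw [D.indep' (sdiff_subset.trans hC₁E)]
    intro i' j' hij2 hj2
    have hle := D.le i' (by omega)
    by_cases hzJ' : z ∈ D.J i' j'
    · rw [mem_J, hz] at hzJ'
      rcases Nat.lt_or_ge s i' with hsi | hsi
      · have h1 : (C₁ \ {c}) ∩ D.J i' j' ⊆ insert z (D.BQ s j ∩ D.J i' j') := by
          rintro y ⟨⟨hy1, hy2⟩, hy3⟩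
          rcases hy1 with rfl | hy1
          · exact Or.inl rfl
          · exact Or.inr ⟨hy1, hy3⟩
        have h2 := ncard_le_ncard h1 ((hBf.subset inter_subset_left).insert z)
        have h3 := ncard_insert_le z (D.BQ s j ∩ D.J i' j')
        have h4 := D.BQ_inter (s := s) (t := j) hij2 hj2
        have h5 := hlt i' hsi (by omega)
        omega
      · have h1 := ncard_le_ncard (inter_subset_left (s := C₁ \ {c}) (t := D.J i' j'))
          (hC₁f.subset sdiff_subset)
        have h2 := ncard_sdiff_singleton_add_one hc hC₁f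
        have h3 := D.Qmono (i := j) (j := j') (by omega) hj2
        have h4 := D.Pmono (i := i') (j := s) hsi (by omega)
        omega
    · have h1 : (C₁ \ {c}) ∩ D.J i' j' ⊆ D.BQ s j ∩ D.J i' j' := by
        rintro y ⟨⟨hy1, hy2⟩, hy3⟩
        rcases hy1 with rfl | hy1
        · exact absurd hy3 hzJ'
        · exact ⟨hy1, hy3⟩
      have h2 := ncard_le_ncard h1 (hBf.subset inter_subset_left)
      have h4 := D.BQ_inter (s := s) (t := j) hij2 hj2
      omega
  have hV₁ : D.V C₁ s j := D.circ_viol hC₁ (by omega) hj (by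
    rw [inter_eq_left.2 hC₁J]; omega)
  obtain ⟨i₁, j₁, hV₁m⟩ := D.exists_VMax hC₁
  have hm1 := hV₁m.2 _ _ hV₁
  have hj₁ : j₁ = j := by
    obtain ⟨⟨hij₁, hj₁n, hs₁, he₁⟩, _⟩ := id hV₁m
    have h1 := D.Pmono (i := i₁) (j := s) hm1.1 (by omega)
    have h2 := D.Qmono (i := j) (j := j₁) hm1.2 hj₁n
    have hCj : C ⊆ D.J i j₁ := by
      intro x hx
      have := hs hx
      rw [mem_J] at *
      omega
    have h3 : D.V C i j₁ := D.circ_viol hC (by omega) hj₁n (by
      rw [inter_eq_left.2 hCj]; omega)
    have := hmax _ _ h3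
    omega
  subst hj₁
  have hC₁K : C₁ ⊆ K := by
    -- `c0` is in the closure of `C₁`
    have h1 : c0 ∈ M.closure C₁ := (D.mem_closure hC₁ hV₁m).2
      (Or.inl ⟨hsE hc0, by rw [mem_J]; omega⟩)
    by_cases hc01 : c0 ∈ C₁
    · exact hK.2.2.1.sub hC₁ hc01 (hCK hc0)
    · obtain ⟨D', h2, h3, h4⟩ := Matroid.exists_isCircuit_of_mem_closure h1 hc01
      have h5 : D' ⊆ K := hK.2.2.1.sub h3 h4 (hCK hc0)
      have h6 : ∃ y ∈ D', y ≠ c0 := by
        by_contra hcon
        push Not at hcon
        have h7 : D' = {c0} := subset_antisymm (fun y hy => hcon y hy) (by simpa using h4)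
        rw [h7] at h3
        have h8 := hK.loop (hCK hc0) (Matroid.singleton_isCircuit.1 h3) ha
        have h9 : a = c0 := h8
        rw [h9] at hai
        omega
      obtain ⟨y, hy, hyc⟩ := h6
      have h7 : y ∈ C₁ := by
        rcases h2 hy with h | h
        · exact absurd h hyc
        · exact h
      exact hK.2.2.1.sub hC₁ h7 (h5 hy)
  refine ⟨s, C₁, hsa, hs0, hlt, hC₁, hC₁K, subset_insert _ _, by omega, ?_⟩
  rw [D.cl_eq hK hC₁ hC₁K hV₁m]
  ext x
  simp only [mem_inter_iff, mem_J, mem_ofPred_eq]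
  constructor
  · rintro ⟨h1, h2⟩; exact ⟨h1, h2.2⟩
  · rintro ⟨h1, h2⟩
    have := hamin x h1
    exact ⟨h1, by omega, h2⟩

end LPData

end Pool.Agent.TH424
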