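import Pool.Agent.TH424.LPNec

set_option autoImplicit false

/-!
# Lattice path matroids satisfy the sentence, continued
-/

namespace Pool.Agent.TH424

universe u

open Set

variable {α : Type u}

namespace LPData

variable {M : Matroid α} (D : LPData M)

theorem rev_set {I : Set α} (hI : I ⊆ M.E) {i j : ℕ} (hij : i ≤ j) (hj : j ≤ D.n) :
    I ∩ {x | i ≤ D.n - 1 - D.pos x ∧ D.n - 1 - D.pos x < j} = I ∩ D.J (D.n - j) (D.n - i) := by
  ext x
  simp only [mem_inter_iff, mem_J, mem_ofPred_eq]
  constructor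
  · rintro ⟨h1, h2, h3⟩
    have := D.lt x (hI h1)
    exact ⟨h1, by omega, by omega⟩
  · rintro ⟨h1, h2, h3⟩
    have := D.lt x (hI h1)
    exact ⟨h1, by omega, by omega⟩

/-- reading a lattice path matroid backwards -/
def rev : LPData M where
  n := D.n
  pos := fun x => D.n - 1 - D.pos x
  hP := fun k => D.hQ D.n - D.hQ (D.n - k)
  hQ := fun k => D.hP D.n - D.hP (D.n - k)
  inj := by
    intro x hx y hy hxy
    have h1 := D.lt x hx
    have h2 := D.lt y hy
    simp only at hxy
    exact D.inj hx hy (by omega)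
  lt := by
    intro x hx
    have h1 := D.lt x hx
    omega
  surj := by
    intro p hp
    obtain ⟨x, hx, hxp⟩ := D.surj (D.n - 1 - p) (by omega)
    exact ⟨x, hx, by omega⟩
  P0 := by simp
  Pn := by
    have := D.P0
    have := D.Pn
    simp only [Nat.sub_self]
    omega
  le := by
    intro k hk
    have h1 := D.le (D.n - k) (by omega)
    have := D.Pn
    omega
  Pstep := by
    intro k hk
    obtain ⟨m, hm⟩ : ∃ m, D.n = k + 1 + m := ⟨D.n - k - 1, by omega⟩
    have e1 : D.n - k = m + 1 := by omega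
    have e2 : D.n - (k + 1) = m := by omega
    have h1 := D.Qstep m (by omega)
    have h2 := D.Qmono (i := m + 1) (j := D.n) (by omega) le_rfl
    rw [e1, e2]
    omega
  Qstep := by
    intro k hk
    obtain ⟨m, hm⟩ : ∃ m, D.n = k + 1 + m := ⟨D.n - k - 1, by omega⟩
    have e1 : D.n - k = m + 1 := by omega
    have e2 : D.n - (k + 1) = m := by omega
    have h1 := D.Pstep m (by omega)
    have h2 := D.Pmono (i := m + 1) (j := D.n) (by omega) le_rfl
    rw [e1, e2]
    omega
  indep := by
    intro I hI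
    rw [D.indep' hI]
    have hn := D.Pn
    constructor
    · intro h i j hij hj
      rw [D.rev_set hI hij hj]
      have h1 := h (D.n - j) (D.n - i) (by omega) (by omega)
      have h2 := D.Pmono (i := D.n - j) (j := D.n) (by omega) le_rfl
      have h3 := D.Qmono (i := D.n - i) (j := D.n) (by omega) le_rfl
      omega
    · intro h i j hij hj
      have h1 := h (D.n - j) (D.n - i) (by omega) (by omega)
      rw [D.rev_set hI (by omega) (by omega), Nat.sub_sub_self hj,
        Nat.sub_sub_self (hij.trans hj)] at h1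
      have h2 := D.Pmono (i := i) (j := D.n) (by omega) le_rfl
      have h3 := D.Qmono (i := j) (j := D.n) (by omega) le_rfl
      omega

theorem rev_V {C : Set α} (hC : C ⊆ M.E) {i j : ℕ} (h : D.V C i j) :
    D.rev.V C (D.n - j) (D.n - i) := by
  obtain ⟨hij, hj, hs, he⟩ := h
  refine ⟨by omega, ?_, ?_, ?_⟩
  · change D.n - i ≤ D.n
    omega
  · intro x hx
    have h1 := hs hx
    have h2 := D.lt x (hC hx)
    rw [mem_J] at *
    change D.n - j ≤ D.n - 1 - D.pos x ∧ D.n - 1 - D.pos x < D.n - i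
    omega
  · change C.ncard + (D.hQ D.n - D.hQ (D.n - (D.n - j))) = D.hP D.n - D.hP (D.n - (D.n - i)) + 1
    rw [Nat.sub_sub_self hj, Nat.sub_sub_self (hij.trans hj)]
    have hn := D.Pn
    have h2 := D.Pmono (i := i) (j := D.n) (by omega) le_rfl
    have h3 := D.Qmono (i := j) (j := D.n) (by omega) le_rfl
    omega

theorem V_rev {C : Set α} (hC : C ⊆ M.E) {i j : ℕ} (h : D.rev.V C i j) :
    D.V C (D.n - j) (D.n - i) := by
  obtain ⟨hij, hj, hs, he⟩ := h
  change j ≤ D.n at hj
  change C.ncard + (D.hQ D.n - D.hQ (D.n - i)) = D.hP D.n - D.hP (D.n - j) + 1 at he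
  refine ⟨by omega, by omega, ?_, ?_⟩
  · intro x hx
    have h1 := hs hx
    have h2 := D.lt x (hC hx)
    rw [mem_J] at h1
    change i ≤ D.n - 1 - D.pos x ∧ D.n - 1 - D.pos x < j at h1
    rw [mem_J]
    omega
  · have hn := D.Pn
    have h2 := D.Pmono (i := D.n - j) (j := D.n) (by omega) le_rfl
    have h3 := D.Qmono (i := D.n - i) (j := D.n) (by omega) le_rfl
    omega

theorem rev_VMax {C : Set α} (hC : C ⊆ M.E) {i j : ℕ} (h : D.VMax C i j) :
    D.rev.VMax C (D.n - j) (D.n - i) := by
  refine ⟨D.rev_V hC h.1, ?_⟩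
  intro i' j' h'
  have h1 := h.2 _ _ (D.V_rev hC h')
  have h2 : i' ≤ j' := h'.1
  have h3 : j' ≤ D.n := h'.2.1
  have h4 := h.1.1
  have h5 := h.1.2.1
  omega

/-- the elements of a circuit or a non-loop in the closure of a circuit inside a component stay in
the component -/
theorem mem_of_closure {K C : Set α} (hK : Comp M K) (hC : M.IsCircuit C) (hCK : C ⊆ K) {x : α}
    (hx : x ∈ M.closure C) (hl : ¬ M.IsLoop x) : x ∈ K := by
  by_cases hxC : x ∈ C
  · exact hCK hxC
  · obtain ⟨D', h2, h3, h4⟩ := Matroid.exists_isCircuit_of_mem_closure hx hxC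
    have h6 : ∃ y ∈ D', y ≠ x := by
      by_contra hcon
      push Not at hcon
      have h7 : D' = {x} := subset_antisymm (fun y hy => hcon y hy) (by simpa using h4)
      rw [h7] at h3
      exact hl (Matroid.singleton_isCircuit.1 h3)
    obtain ⟨y, hy, hyx⟩ := h6
    have h7 : y ∈ C := by
      rcases h2 hy with h | h
      · exact absurd h hyx
      · exact h
    exact hK.2.2.1.sub h3 hy (hCK h7) h4

theorem rk_circuit {C K : Set α} [M.Finite] (hC : M.IsCircuit C) (hCK : C ⊆ K) :
    M.eRk (M.closure C ∩ K) + 1 = C.ncard := by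
  have h1 : M.eRk (M.closure C ∩ K) = M.eRk C := by
    apply le_antisymm
    · calc M.eRk (M.closure C ∩ K) ≤ M.eRk (M.closure C) := M.eRk_mono inter_subset_left
        _ = M.eRk C := M.eRk_closure_eq C
    · exact M.eRk_mono (subset_inter (M.subset_closure C hC.subset_ground) hCK)
  rw [h1, hC.eRk_add_one_eq, (fin hC.subset_ground).cast_ncard_eq]

theorem modu_of_rk [M.Finite] {F G K : Set α} (hF : F ⊆ K) (hG : G ⊆ K) (hK : K ⊆ M.E)
    (hFG : K ⊆ F ∪ G) (h : M.eRk F + M.eRk G ≤ M.eRk K + M.eRk (F ∩ G)) : Modu M F G := by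
  have hFE : F ⊆ M.E := hF.trans hK
  have hGE : G ⊆ M.E := hG.trans hK
  obtain ⟨I, hI⟩ := M.exists_isBasis (F ∩ G) (inter_subset_left.trans hFE)
  obtain ⟨B₁, hB₁, hIB₁⟩ := hI.indep.subset_isBasis_of_subset (hI.subset.trans inter_subset_left)
  obtain ⟨B₂, hB₂, hIB₂⟩ := hI.indep.subset_isBasis_of_subset (hI.subset.trans inter_subset_right)
  refine ⟨B₁, B₂, hB₁, hB₂, ?_⟩
  have hf1 : B₁.Finite := fin hB₁.indep.subset_ground
  have hf2 : B₂.Finite := fin hB₂.indep.subset_ground
  have hint : B₁ ∩ B₂ = I := by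
    apply subset_antisymm
    · have h1 : M.Indep (B₁ ∩ B₂) := hB₁.indep.subset inter_subset_left
      have h2 := hI.eq_of_subset_indep h1 (subset_inter hIB₁ hIB₂)
        (inter_subset_inter hB₁.subset hB₂.subset)
      exact h2.ge
    · exact subset_inter hIB₁ hIB₂
  have hspan : M.eRk (B₁ ∪ B₂) = M.eRk K := by
    rw [← M.eRk_closure_eq (B₁ ∪ B₂), ← M.eRk_closure_eq K]
    congr 1
    rw [← M.closure_union_closure_left_eq, ← M.closure_union_closure_right_eq, hB₁.closure_eq_closure,
      hB₂.closure_eq_closure, M.closure_union_closure_left_eq, M.closure_union_closure_right_eq,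
      subset_antisymm (union_subset hF hG) hFG]
  rw [Matroid.indep_iff_eRk_eq_encard_of_finite (hf1.union hf2)]
  apply le_antisymm (M.eRk_le_encard _)
  rw [hspan]
  have e1 := encard_union_add_encard_inter B₁ B₂
  rw [hint, hI.encard_eq_eRk, hB₁.encard_eq_eRk, hB₂.encard_eq_eRk] at e1
  have hfin : M.eRk (F ∩ G) ≠ ⊤ := by
    rw [← hI.encard_eq_eRk]
    exact (hf1.subset hIB₁).encard_lt_top.ne
  rw [← e1] at h
  exact (WithTop.add_le_add_iff_right hfin).1 h

include D in
/-- **Lattice path matroids satisfy the sentence.** -/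
theorem good [M.Finite] : Good M := by
  intro K hK
  have hKf : K.Finite := fin hK.1
  obtain ⟨a, ha, hamin⟩ := Set.exists_min_image K D.pos hKf hK.2.1
  obtain ⟨b, hb, hbmax⟩ := Set.exists_max_image K D.pos hKf hK.2.1
  refine ⟨a, ha, b, hb, ?_⟩
  have hJ : ∀ C F, Cl M K C F → ∃ i j, i < j ∧ D.VMax C i j ∧ F = K ∩ D.J i j := by
    rintro C F ⟨hC, hCK, rfl⟩
    obtain ⟨i, j, hV⟩ := D.exists_VMax hC
    obtain ⟨c, hc⟩ := hC.nonempty
    have := hV.1.2.2.1 hc
    rw [mem_J] at this
    exact ⟨i, j, by omega, hV, D.cl_eq hK hC hCK hV⟩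
  intro C F hCl
  obtain ⟨i, j, hij, hV, hF⟩ := hJ C F hCl
  refine ⟨?_, ?_, ?_⟩
  · intro haF hbF x hx
    rw [hF] at haF hbF ⊢
    have h1 := haF.2
    have h2 := hbF.2
    have h3 := hamin x hx
    have h4 := hbmax x hx
    refine ⟨hx, ?_⟩
    rw [mem_J] at *
    omega
  · intro C' F' hCl'
    obtain ⟨i', j', hij', hV', hF'⟩ := hJ C' F' hCl'
    refine ⟨?_, ?_, ?_⟩
    · intro h1 h2
      rw [hF] at h1 ⊢
      rw [hF'] at h2 ⊢
      have h1 := h1.2
      have h2 := h2.2
      rw [mem_J] at h1 h2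
      rcases le_total j j' with h | h
      · left
        rintro x ⟨hx, hx2⟩
        have := hamin x hx
        refine ⟨hx, ?_⟩
        rw [mem_J] at *
        omega
      · right
        rintro x ⟨hx, hx2⟩
        have := hamin x hx
        refine ⟨hx, ?_⟩
        rw [mem_J] at *
        omega
    · intro h1 h2
      rw [hF] at h1 ⊢
      rw [hF'] at h2 ⊢
      have h1 := h1.2
      have h2 := h2.2
      rw [mem_J] at h1 h2
      rcases le_total i i' with h | h
      · right
        rintro x ⟨hx, hx2⟩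
        have := hbmax x hx
        refine ⟨hx, ?_⟩
        rw [mem_J] at *
        omega
      · left
        rintro x ⟨hx, hx2⟩
        have := hbmax x hx
        refine ⟨hx, ?_⟩
        rw [mem_J] at *
        omega
    · intro h1 h2
      rw [hF] at h1 ⊢
      rw [hF'] at h2 ⊢
      have h1 := h1.2
      have h2 := h2.2
      rw [mem_J] at h1 h2
      rcases le_or_gt j i' with h | h
      · left
        rw [disjoint_left]
        rintro x ⟨hx, hx2⟩ ⟨_, hx3⟩
        rw [mem_J] at *
        omega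
      · right
        intro x hx
        have h5 := hamin x hx
        have h6 := hbmax x hx
        rcases Nat.lt_or_ge (D.pos x) j with h7 | h7
        · left
          refine ⟨hx, ?_⟩
          rw [mem_J]
          omega
        · right
          refine ⟨hx, ?_⟩
          rw [mem_J]
          omega
  · intro haF hbF
    obtain ⟨hC, hCK, hF0⟩ := id hCl
    have hCE := hC.subset_ground
    obtain ⟨c0, hc0⟩ := hC.nonempty
    have hc0K := hCK hc0
    have hc0J := hV.1.2.2.1 hc0
    have hca := hamin c0 hc0K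
    have hcb := hbmax c0 hc0K
    rw [mem_J] at hc0J
    have hbn := D.lt b (hK.1 hb)
    have hai : D.pos a < i := by
      by_contra hcon
      apply haF
      rw [hF]
      exact ⟨ha, by rw [mem_J]; omega⟩
    have hbj : j ≤ D.pos b := by
      by_contra hcon
      apply hbF
      rw [hF]
      exact ⟨hb, by rw [mem_J]; omega⟩
    have hjn := hV.1.2.1
    obtain ⟨s, C₁, hsa, hs0, hlt, hC₁, hC₁K, hBC₁, hcard₁, hcl₁⟩ :=
      D.exists_left hK hC hCK hV ha hb hamin hai hbj
    obtain ⟨t', C₂, htb, ht0, hlt2, hC₂, hC₂K, hBC₂, hcard₂, hcl₂⟩ :=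
      D.rev.exists_left hK hC hCK (D.rev_VMax hCE hV) hb ha (by
        intro x hx
        have := hbmax x hx
        change D.n - 1 - D.pos b ≤ D.n - 1 - D.pos x
        omega) (by
        change D.n - 1 - D.pos b < D.n - j
        omega) (by
        change D.n - i ≤ D.n - 1 - D.pos a
        omega)
    change t' ≤ D.n - 1 - D.pos b at htb
    change D.hQ D.n - D.hQ (D.n - t') = D.hP D.n - D.hP (D.n - t') at ht0
    change C₂.ncard + (D.hQ D.n - D.hQ (D.n - t')) = D.hP D.n - D.hP (D.n - (D.n - i)) + 1 at hcard₂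
    have hcl₂' : M.closure C₂ ∩ K = {x | x ∈ K ∧ i ≤ D.pos x} := by
      rw [hcl₂]
      ext x
      simp only [mem_ofPred_eq]
      refine and_congr_right fun hx => ?_
      have := D.lt x (hK.1 hx)
      change D.n - 1 - D.pos x < D.n - i ↔ _
      omega
    rw [Nat.sub_sub_self (by omega)] at hcard₂
    obtain ⟨t, ht⟩ : ∃ t, t = D.n - t' := ⟨_, rfl⟩
    rw [← ht] at ht0 hcard₂
    have htn : t ≤ D.n := by omega
    have hPt := D.Pmono htn le_rfl
    have hQt := D.Qmono htn le_rfl
    have hn := D.Pn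
    have htt : D.hP t = D.hQ t := by omega
    have hPi := D.Pmono (i := i) (j := D.n) (by omega) le_rfl
    -- the circuit `C₂` contains the elements of `B_Q`
    have hF₁ : {x | x ∈ K ∧ D.pos x < j} = M.closure C₁ ∩ K := hcl₁.symm
    have hF₂ : {x | x ∈ K ∧ i ≤ D.pos x} = M.closure C₂ ∩ K := hcl₂'.symm
    have hFeq : F = {x | x ∈ K ∧ D.pos x < j} ∩ {x | x ∈ K ∧ i ≤ D.pos x} := by
      rw [hF]
      ext x
      simp only [mem_inter_iff, mem_J, mem_ofPred_eq]
      tauto
    have hcov : K ⊆ {x | x ∈ K ∧ D.pos x < j} ∪ {x | x ∈ K ∧ i ≤ D.pos x} := by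
      intro x hx
      rcases Nat.lt_or_ge (D.pos x) j with h | h
      · exact Or.inl ⟨hx, h⟩
      · exact Or.inr ⟨hx, by omega⟩
    refine ⟨C₁, {x | x ∈ K ∧ D.pos x < j}, C₂, {x | x ∈ K ∧ i ≤ D.pos x}, ⟨hC₁, hC₁K, hF₁⟩,
      ⟨hC₂, hC₂K, hF₂⟩, ⟨ha, by omega⟩, ⟨hb, by omega⟩, hFeq, hcov, ?_⟩
    apply modu_of_rk (K := K) (fun x hx => hx.1) (fun x hx => hx.1) hK.1 hcov
    rw [← hFeq]
    -- the rank of `K`
    have hBK : D.BQ s t ⊆ K := by
      intro x hx
      obtain ⟨hxE, hxJ, hxs⟩ := id hx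
      rw [mem_J] at hxJ
      rcases Nat.lt_or_ge (D.pos x) j with h | h
      · exact hC₁K (hBC₁ ⟨hxE, by rw [mem_J]; omega, hxs⟩)
      · -- `x` is in the closure of `C₂`
        have hnl : ¬ M.IsLoop x := ((D.BQ_indep s t).isNonloop_of_mem hx).not_isLoop
        apply mem_of_closure hK hC₂ hC₂K _ hnl
        obtain ⟨i₂, j₂, hV₂⟩ := D.exists_VMax hC₂
        rw [D.mem_closure hC₂ hV₂]
        left
        refine ⟨hxE, ?_⟩
        have hVC₂ : D.V C₂ i t := by
          apply D.circ_viol hC₂ (by omega) htn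
          have : C₂ ⊆ D.J i t := by
            intro y hy
            have hyK := hC₂K hy
            have h1 : y ∈ M.closure C₂ ∩ K := ⟨M.mem_closure_of_mem hy hC₂.subset_ground, hyK⟩
            rw [hcl₂'] at h1
            have h2 := hbmax y hyK
            rw [mem_J]
            have h3 := h1.2
            omega
          rw [inter_eq_left.2 this]
          omega
        have := hV₂.2 _ _ hVC₂
        rw [mem_J]
        omega
    have hrK : ((D.BQ s t).ncard : ℕ∞) ≤ M.eRk K := by
      rw [(fin (D.BQ_sub s t)).cast_ncard_eq]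
      exact (D.BQ_indep s t).encard_le_eRk_of_subset hBK
    have hBcard := D.ncard_BQ (i := s) (j := t) (by omega) htn
    have hr₁ := rk_circuit hC₁ hC₁K
    have hr₂ := rk_circuit hC₂ hC₂K
    have hr := rk_circuit hC hCK
    rw [← hF₁] at hr₁
    rw [← hF₂] at hr₂
    rw [← hF0] at hr
    have hVe := hV.1.2.2.2
    have hPsi := D.Pmono (i := s) (j := i) (by omega) (by omega)
    have hQjt := D.Qmono (i := j) (j := t) (by omega) htn
    generalize M.eRk {x | x ∈ K ∧ D.pos x < j} = r₁ at *
    generalize M.eRk {x | x ∈ K ∧ i ≤ D.pos x} = r₂ at *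
    generalize M.eRk F = r at *
    generalize M.eRk K = rK at *
    induction r₁ using ENat.recTopCoe with
    | top => simp at hr₁
    | coe r₁ =>
    induction r₂ using ENat.recTopCoe with
    | top => simp at hr₂
    | coe r₂ =>
    induction r using ENat.recTopCoe with
    | top => simp at hr
    | coe r =>
    induction rK using ENat.recTopCoe with
    | top => simp
    | coe rK =>
    norm_cast at *
    omega

end LPData

end Pool.Agent.TH424
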