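import Pool.Agent.TH424.LPPaths

set_option autoImplicit false

/-!
# A lattice path matroid carries height data
-/

namespace Pool.Agent.TH424

universe u

open Set

variable {α : Type u}

/-- the set of elements at the North steps of a path -/
def northSet {E : Set α} {m r : ℕ} (e : E ≃ Fin (m + r)) (R : LatticePath m r) : Set α :=
  {x | ∃ h : x ∈ E, R.north (e ⟨x, h⟩) = true}

section

variable {E : Set α} {m r : ℕ} (e : E ≃ Fin (m + r)) (R : LatticePath m r)

theorem mem_northSet_symm {k : ℕ} (hk : k < m + r) :
    (e.symm ⟨k, hk⟩ : α) ∈ northSet e R ↔ R.north ⟨k, hk⟩ = true := by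
  simp [northSet]

theorem northSet_sub : northSet e R ⊆ E := fun _ h => h.1

/-- the number of elements of `northSet` before a position is the height -/
theorem ncard_northSet_pre (hE : E.Finite) {k : ℕ} (hk : k ≤ m + r) :
    (northSet e R ∩ pre e k).ncard = R.height k := by
  induction k with
  | zero => rw [pre_zero, inter_empty, ncard_empty, R.height_zero]
  | succ k ih =>
    have h1 := ncard_inter_pre_succ e hE (northSet e R) (k := k) (by omega)
    have h2 := R.height_succ (k := k) (by omega)
    rw [mem_northSet_symm] at h1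
    have ih' := ih (by omega)
    by_cases h : R.north ⟨k, by omega⟩ = true
    · rw [if_pos h] at h2
      rw [h1.1 h, h2, ih']
    · rw [if_neg h] at h2
      rw [h1.2 h, h2, ih', add_zero]

theorem ncard_northSet (hE : E.Finite) : (northSet e R).ncard = r := by
  have h := ncard_northSet_pre e R hE le_rfl
  rw [pre_top, inter_eq_left.2 (northSet_sub e R), R.height_top] at h
  exact h

/-- number of elements in an interval -/
theorem ncard_inter_interval (hE : E.Finite) (B : Set α) {i j : ℕ} (hij : i ≤ j) :
    (B ∩ (pre e j \ pre e i)).ncard + (B ∩ pre e i).ncard = (B ∩ pre e j).ncard := by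
  have hf : (B ∩ pre e j).Finite := (hE.subset (pre_sub e j)).subset inter_subset_right
  rw [← ncard_union_eq _ (hf.subset (inter_subset_inter_right _ sdiff_subset))
    (hf.subset (inter_subset_inter_right _ (pre_mono e hij)))]
  · congr 1
    ext x
    simp only [mem_union, mem_inter_iff, mem_sdiff]
    constructor
    · rintro (⟨h1, h2, _⟩ | ⟨h1, h2⟩)
      · exact ⟨h1, h2⟩
      · exact ⟨h1, pre_mono e hij h2⟩
    · rintro ⟨h1, h2⟩
      by_cases h3 : x ∈ pre e i
      · exact Or.inr ⟨h1, h3⟩
      · exact Or.inl ⟨h1, h2, h3⟩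
  · rw [disjoint_left]
    rintro x ⟨_, _, h1⟩ ⟨_, h2⟩
    exact h1 h2

end

theorem step_height {m r : ℕ} (P : LatticePath m r) :
    ∀ k < m + r, P.height k ≤ P.height (k+1) ∧ P.height (k+1) ≤ P.height k + 1 := by
  intro k hk
  rw [P.height_succ hk]
  split_ifs <;> omega

theorem lpData_of_isLatticePathMatroid {M : Matroid α} [M.Finite] (h : IsLatticePathMatroid M) :
    Nonempty (LPData M) := by
  classical
  obtain ⟨m, r, P, Q, hPQ, e, hB⟩ := h
  have hE : M.E.Finite := M.ground_finite
  have hB' : ∀ B, M.IsBase B ↔ ∃ R : LatticePath m r, P.Below R ∧ R.Below Q ∧ B = northSet e R := hB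
  let pos : α → ℕ := fun x => if hx : x ∈ M.E then (e ⟨x, hx⟩ : ℕ) else 0
  have hpos : ∀ x (hx : x ∈ M.E), pos x = (e ⟨x, hx⟩ : ℕ) := fun x hx => by simp [pos, hx]
  have hint : ∀ (I : Set α), I ⊆ M.E → ∀ i j, I ∩ {x | i ≤ pos x ∧ pos x < j} =
      I ∩ (pre e j \ pre e i) := by
    intro I hI i j
    ext x
    simp only [mem_inter_iff, mem_sdiff, pre, mem_ofPred_eq, not_exists]
    refine and_congr_right fun hx => ?_
    have hxE := hI hx
    rw [hpos x hxE]
    constructor
    · rintro ⟨h1, h2⟩; exact ⟨⟨hxE, h2⟩, fun _ => by omega⟩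
    · rintro ⟨⟨_, h2⟩, h3⟩
      have := h3 hxE
      exact ⟨by omega, h2⟩
  refine ⟨{ n := m + r, pos := pos, hP := P.height, hQ := Q.height, inj := ?_, lt := ?_, surj := ?_,
            P0 := ?_, Pn := ?_, le := hPQ, Pstep := step_height P, Qstep := step_height Q,
            indep := ?_ }⟩
  · intro x hx y hy hxy
    rw [hpos x hx, hpos y hy] at hxy
    have := e.injective (Fin.ext hxy)
    simpa using this
  · intro x hx
    rw [hpos x hx]; exact (e ⟨x, hx⟩).2
  · intro p hp
    refine ⟨e.symm ⟨p, hp⟩, Subtype.coe_prop _, ?_⟩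
    rw [hpos _ (Subtype.coe_prop _)]; simp
  · rw [P.height_zero, Q.height_zero]
  · rw [P.height_top, Q.height_top]
  · intro I hI
    constructor
    · intro hind i j hij hj
      rw [hint I hI]
      obtain ⟨B, hBb, hIB⟩ := hind.exists_isBase_superset
      obtain ⟨R, hPR, hRQ, rfl⟩ := (hB' B).1 hBb
      have h1 := ncard_inter_interval e hE (northSet e R) hij
      rw [ncard_northSet_pre e R hE (by omega), ncard_northSet_pre e R hE hj] at h1
      have h2 : (I ∩ (pre e j \ pre e i)).ncard ≤ (northSet e R ∩ (pre e j \ pre e i)).ncard :=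
        ncard_le_ncard (inter_subset_inter_left _ hIB)
          ((hE.subset (northSet_sub e R)).subset inter_subset_left)
      have h3 := hPR i (by omega)
      have h4 := hRQ j hj
      omega
    · intro h
      have h' : ∀ i j, i ≤ j → j ≤ m + r →
          (I ∩ (pre e j \ pre e i)).ncard + P.height i ≤ Q.height j := by
        intro i j hij hj
        rw [← hint I hI]; exact h i j hij hj
      -- the lowest path above `P` whose North steps contain `I`
      let f : ℕ → ℕ := fun k => Nat.rec 0 (fun k fk =>
        max (fk + ((I ∩ pre e (k+1)).ncard - (I ∩ pre e k).ncard)) (P.height (k+1))) k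
      have f0 : f 0 = 0 := rfl
      have fs : ∀ k, f (k+1) = max (f k + ((I ∩ pre e (k+1)).ncard - (I ∩ pre e k).ncard))
        (P.height (k+1)) := fun k => rfl
      have hfP : ∀ k, k ≤ m + r → P.height k ≤ f k := by
        intro k _
        cases k with
        | zero => rw [P.height_zero]; exact Nat.zero_le _
        | succ k => rw [fs]; exact le_max_right _ _
      have hstepI : ∀ k, k < m + r → (I ∩ pre e (k+1)).ncard = (I ∩ pre e k).ncard ∨
          (I ∩ pre e (k+1)).ncard = (I ∩ pre e k).ncard + 1 := by
        intro k hk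
        have h1 := ncard_inter_pre_succ e hE I hk
        by_cases h : (e.symm ⟨k, hk⟩ : α) ∈ I
        · exact Or.inr (h1.1 h)
        · exact Or.inl (h1.2 h)
      have hfform : ∀ k, k ≤ m + r → ∃ i ≤ k, f k + (I ∩ pre e i).ncard =
          P.height i + (I ∩ pre e k).ncard := by
        intro k
        induction k with
        | zero => intro _; exact ⟨0, le_rfl, by rw [f0, P.height_zero]⟩
        | succ k ih =>
          intro hk
          obtain ⟨i, hi, he⟩ := ih (by omega)
          rcases le_total (f k + ((I ∩ pre e (k+1)).ncard - (I ∩ pre e k).ncard))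
            (P.height (k+1)) with h1 | h1
          · exact ⟨k+1, le_rfl, by rw [fs, max_eq_right h1]⟩
          · refine ⟨i, by omega, ?_⟩
            rw [fs, max_eq_left h1]
            rcases hstepI k (by omega) with h2 | h2 <;> omega
      have hfQ : ∀ k, k ≤ m + r → f k ≤ Q.height k := by
        intro k hk
        obtain ⟨i, hi, he⟩ := hfform k hk
        have h1 := h' i k hi hk
        have h2 := ncard_inter_interval e hE I hi
        omega
      have hfs : ∀ k < m + r, f k ≤ f (k+1) ∧ f (k+1) ≤ f k + 1 := by
        intro k hk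
        have h1 := step_height P k hk
        have h2 := hfP k hk.le
        rw [fs]
        rcases hstepI k hk with h3 | h3
        · rw [h3, Nat.sub_self, add_zero]
          constructor
          · exact le_max_left _ _
          · exact max_le (by omega) (by omega)
        · rw [h3, Nat.add_sub_cancel_left]
          constructor
          · exact (Nat.le_succ _).trans (le_max_left _ _)
          · exact max_le le_rfl (by omega)
      have hfr : f (m + r) = r := by
        have h1 := hfP (m + r) le_rfl
        have h2 := hfQ (m + r) le_rfl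
        rw [P.height_top] at h1
        rw [Q.height_top] at h2
        omega
      obtain ⟨R, hR, hRn⟩ := LatticePath.exists_of_height f f0 hfr hfs
      have hbase : M.IsBase (northSet e R) :=
        (hB' _).2 ⟨R, fun k hk => by rw [hR k hk]; exact hfP k hk,
          fun k hk => by rw [hR k hk]; exact hfQ k hk, rfl⟩
      refine hbase.indep.subset ?_
      intro x hx
      have hxE := hI hx
      refine ⟨hxE, ?_⟩
      rw [hRn]
      obtain ⟨k, hk⟩ : ∃ k, k = (e ⟨x, hxE⟩ : ℕ) := ⟨_, rfl⟩
      have hkl : k < m + r := by rw [hk]; exact (e ⟨x, hxE⟩).2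
      have hek : (e.symm ⟨k, hkl⟩ : α) = x := by
        have : (⟨k, hkl⟩ : Fin (m + r)) = e ⟨x, hxE⟩ := Fin.ext hk
        rw [this]; simp
      have h1 := (ncard_inter_pre_succ e hE I hkl).1 (by rw [hek]; exact hx)
      rw [← hk]
      have h2 := hfs k hkl
      have h3 : f k + 1 ≤ f (k + 1) := by
        rw [fs, h1, Nat.add_sub_cancel_left]
        exact le_max_left _ _
      omega

end Pool.Agent.TH424
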