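import Pool.Agent.TH424.LPNec2

set_option autoImplicit false

/-!
# Lattice paths and heights
-/

namespace Pool.Agent.TH424

universe u

open Set

variable {α : Type u}

namespace LatticePath

variable {m r : ℕ}

theorem height_zero (P : LatticePath m r) : P.height 0 = 0 := by
  unfold height; simp

theorem height_top (P : LatticePath m r) : P.height (m + r) = r := by
  unfold height
  have h := P.card_north
  have : (Finset.univ.filter fun i : Fin (m + r) => (i : ℕ) < m + r ∧ P.north i = true) =
      (Finset.univ.filter fun i => P.north i = true) := by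
    ext i; simp
  rw [this, h]

theorem height_succ (P : LatticePath m r) {k : ℕ} (hk : k < m + r) :
    P.height (k + 1) = P.height k + (if P.north ⟨k, hk⟩ = true then 1 else 0) := by
  classical
  unfold height
  by_cases h : P.north ⟨k, hk⟩ = true
  · have : (Finset.univ.filter fun i : Fin (m + r) => (i : ℕ) < k + 1 ∧ P.north i = true) =
        insert ⟨k, hk⟩ (Finset.univ.filter fun i : Fin (m + r) => (i : ℕ) < k ∧ P.north i = true) := by
      ext i
      simp only [Finset.mem_filter, Finset.mem_univ, true_and, Finset.mem_insert]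
      constructor
      · rintro ⟨h1, h2⟩
        by_cases h3 : (i : ℕ) = k
        · left; exact Fin.ext h3
        · right; exact ⟨by omega, h2⟩
      · rintro (rfl | ⟨h1, h2⟩)
        · exact ⟨Nat.lt_succ_self _, h⟩
        · exact ⟨by omega, h2⟩
    rw [this, Finset.card_insert_of_notMem (by simp), if_pos h]
  · have : (Finset.univ.filter fun i : Fin (m + r) => (i : ℕ) < k + 1 ∧ P.north i = true) =
        (Finset.univ.filter fun i : Fin (m + r) => (i : ℕ) < k ∧ P.north i = true) := by
      ext i
      simp only [Finset.mem_filter, Finset.mem_univ, true_and]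
      constructor
      · rintro ⟨h1, h2⟩
        refine ⟨?_, h2⟩
        by_contra h3
        have : i = ⟨k, hk⟩ := Fin.ext (by simp; omega)
        rw [this] at h2
        exact h h2
      · rintro ⟨h1, h2⟩
        exact ⟨by omega, h2⟩
    rw [this, if_neg h, add_zero]

/-- a lattice path with prescribed heights -/
theorem exists_of_height (f : ℕ → ℕ) (h0 : f 0 = 0) (hr : f (m + r) = r)
    (hs : ∀ k < m + r, f k ≤ f (k + 1) ∧ f (k + 1) ≤ f k + 1) :
    ∃ R : LatticePath m r, (∀ k ≤ m + r, R.height k = f k) ∧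
      ∀ i : Fin (m + r), (R.north i = true ↔ f (i + 1) = f i + 1) := by
  classical
  let g : Fin (m + r) → Bool := fun i => decide (f (i + 1) = f i + 1)
  have key : ∀ k ≤ m + r,
      (Finset.univ.filter fun i : Fin (m + r) => (i : ℕ) < k ∧ g i = true).card = f k := by
    intro k
    induction k with
    | zero => intro _; simp [h0]
    | succ k ih =>
      intro hk
      have ih' := ih (by omega)
      have hsk := hs k (by omega)
      by_cases h : f (k + 1) = f k + 1
      · have : (Finset.univ.filter fun i : Fin (m + r) => (i : ℕ) < k + 1 ∧ g i = true) =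
            insert ⟨k, by omega⟩ (Finset.univ.filter fun i : Fin (m + r) => (i : ℕ) < k ∧ g i = true) := by
          ext i
          simp only [Finset.mem_filter, Finset.mem_univ, true_and, Finset.mem_insert]
          constructor
          · rintro ⟨h1, h2⟩
            by_cases h3 : (i : ℕ) = k
            · left; exact Fin.ext h3
            · right; exact ⟨by omega, h2⟩
          · rintro (rfl | ⟨h1, h2⟩)
            · exact ⟨Nat.lt_succ_self _, by simp [g, h]⟩
            · exact ⟨by omega, h2⟩
        rw [this, Finset.card_insert_of_notMem (by simp), ih', h]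
      · have : (Finset.univ.filter fun i : Fin (m + r) => (i : ℕ) < k + 1 ∧ g i = true) =
            (Finset.univ.filter fun i : Fin (m + r) => (i : ℕ) < k ∧ g i = true) := by
          ext i
          simp only [Finset.mem_filter, Finset.mem_univ, true_and]
          constructor
          · rintro ⟨h1, h2⟩
            refine ⟨?_, h2⟩
            by_contra h3
            have h4 : (i : ℕ) = k := by omega
            simp only [g, h4, decide_eq_true_eq] at h2
            exact h h2
          · rintro ⟨h1, h2⟩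
            exact ⟨by omega, h2⟩
        rw [this, ih']
        omega
  refine ⟨⟨g, ?_⟩, ?_, ?_⟩
  · have h5 := key (m + r) le_rfl
    rw [hr] at h5
    refine Eq.trans ?_ h5
    congr 1
    ext i
    simp
  · intro k hk
    exact key k hk
  · intro i
    simp [g]

end LatticePath

/-- the set of elements of the ground set placed before position `k` -/
def pre {E : Set α} {n : ℕ} (e : E ≃ Fin n) (k : ℕ) : Set α :=
  {x | ∃ h : x ∈ E, (e ⟨x, h⟩ : ℕ) < k}

section pre

variable {E : Set α} {n : ℕ} (e : E ≃ Fin n)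

theorem pre_sub (k : ℕ) : pre e k ⊆ E := fun _ h => h.1

theorem pre_zero : pre e 0 = ∅ := by
  ext x; simp [pre]

theorem pre_top : pre e n = E := by
  ext x; simp [pre]

theorem pre_mono {k l : ℕ} (h : k ≤ l) : pre e k ⊆ pre e l := by
  rintro x ⟨h1, h2⟩; exact ⟨h1, by omega⟩

theorem pre_succ {k : ℕ} (hk : k < n) : pre e (k + 1) = insert (e.symm ⟨k, hk⟩ : α) (pre e k) := by
  ext x
  simp only [pre, mem_ofPred_eq, mem_insert_iff]
  constructor
  · rintro ⟨h1, h2⟩
    by_cases h3 : (e ⟨x, h1⟩ : ℕ) = k
    · left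
      have : e ⟨x, h1⟩ = ⟨k, hk⟩ := Fin.ext h3
      rw [← this]; simp
    · right; exact ⟨h1, by omega⟩
  · rintro (rfl | ⟨h1, h2⟩)
    · exact ⟨Subtype.coe_prop _, by simp⟩
    · exact ⟨h1, by omega⟩

theorem not_mem_pre {k : ℕ} (hk : k < n) : (e.symm ⟨k, hk⟩ : α) ∉ pre e k := by
  rintro ⟨h1, h2⟩
  simp at h2

theorem ncard_inter_pre_succ (hE : E.Finite) (B : Set α) {k : ℕ} (hk : k < n) :
    ((e.symm ⟨k, hk⟩ : α) ∈ B → (B ∩ pre e (k+1)).ncard = (B ∩ pre e k).ncard + 1) ∧
    ((e.symm ⟨k, hk⟩ : α) ∉ B → (B ∩ pre e (k+1)).ncard = (B ∩ pre e k).ncard) := by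
  have hf : (B ∩ pre e k).Finite := (hE.subset (pre_sub e k)).subset inter_subset_right
  rw [pre_succ e hk]
  constructor
  · intro h
    rw [inter_insert_of_mem h, ncard_insert_of_notMem (fun h' => not_mem_pre e hk h'.2) hf]
  · intro h
    rw [inter_insert_of_notMem h]

/-- an initial set is one of the sets `pre e k` -/
theorem exists_eq_pre (hE : E.Finite) {Z : Set α} (hZ : Z ⊆ E)
    (h : ∀ x y : E, x.1 ∈ Z → y.1 ∉ Z → e x < e y) : ∃ k ≤ n, Z = pre e k := by
  rcases Z.eq_empty_or_nonempty with rfl | hne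
  · exact ⟨0, Nat.zero_le _, (pre_zero e).symm⟩
  · have hZf : Z.Finite := hE.subset hZ
    classical
    let g : α → ℕ := fun x => if hx : x ∈ E then (e ⟨x, hx⟩ : ℕ) else 0
    obtain ⟨z, hz, hzmax⟩ := Set.exists_max_image Z g hZf hne
    have hzE := hZ hz
    have hgz : g z = (e ⟨z, hzE⟩ : ℕ) := by simp [g, hzE]
    refine ⟨(e ⟨z, hzE⟩ : ℕ) + 1, (e ⟨z, hzE⟩).2, ?_⟩
    ext x
    constructor
    · intro hx
      have hxE := hZ hx
      have h1 := hzmax x hx
      have hgx : g x = (e ⟨x, hxE⟩ : ℕ) := by simp [g, hxE]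
      exact ⟨hxE, by omega⟩
    · rintro ⟨hxE, hx⟩
      by_contra hxZ
      have := h ⟨z, hzE⟩ ⟨x, hxE⟩ hz hxZ
      rw [Fin.lt_def] at this
      omega

end pre

/-- a finite chain of subsets of a finite set can be turned into initial sets of an enumeration -/
theorem exists_enum {E : Set α} (hE : E.Finite) (Zs : Set (Set α)) (hsub : ∀ Z ∈ Zs, Z ⊆ E)
    (hchain : ∀ Z ∈ Zs, ∀ Z' ∈ Zs, Z ⊆ Z' ∨ Z' ⊆ Z) {n : ℕ} (hn : E.ncard = n) :
    ∃ e : E ≃ Fin n, ∀ Z ∈ Zs, ∀ x y : E, x.1 ∈ Z → y.1 ∉ Z → e x < e y := by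
  classical
  have hZf : Zs.Finite := hE.finite_subsets.subset hsub
  let ρ : E → ℕ := fun x => {Z | Z ∈ Zs ∧ x.1 ∉ Z}.ncard
  have : Fintype E := hE.fintype
  have hcard : Fintype.card E = n := by
    rw [← hn, Set.ncard_eq_toFinset_card' E]; simp
  let e0 : E ≃ Fin n := Fintype.equivFinOfCardEq hcard
  let g : Fin n → ℕ := ρ ∘ e0.symm
  let σ := Tuple.sort g
  have hmono : Monotone (g ∘ σ) := Tuple.monotone_sort g
  refine ⟨e0.trans σ.symm, ?_⟩
  intro Z hZ x y hx hy
  have hlt : ρ x < ρ y := by
    apply Set.ncard_lt_ncard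
    · refine ⟨?_, ?_⟩
      · rintro Z' ⟨hZ', hx'⟩
        refine ⟨hZ', fun hy' => ?_⟩
        rcases hchain Z hZ Z' hZ' with h | h
        · exact hx' (h hx)
        · exact hy (h hy')
      · intro h
        exact (h ⟨hZ, hy⟩).2 hx
    · exact hZf.subset fun Z' h => h.1
  by_contra hcon
  rw [not_lt] at hcon
  have h1 := hmono hcon
  simp only [Function.comp_apply, Equiv.trans_apply, Equiv.apply_symm_apply, g,
    Equiv.symm_apply_apply] at h1
  omega

end Pool.Agent.TH424
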