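import Pool.Agent.TH424.LPOfPaths

set_option autoImplicit false

/-!
# A matroid satisfying the sentence is a lattice path matroid
-/

namespace Pool.Agent.TH424

universe u

open Set

variable {α : Type u} {M : Matroid α}

/-! ### Rank as a natural number -/

/-- rank as a natural number -/
noncomputable def rk (M : Matroid α) (X : Set α) : ℕ := (M.eRk X).toNat

section rk

variable [M.Finite]

theorem eRk_ne_top' (X : Set α) : M.eRk X ≠ ⊤ := by
  have h1 : M.eRk X ≤ M.eRank := M.eRk_le_eRank X
  have h2 : M.eRank ≤ M.E.encard := M.eRank_le_encard_ground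
  exact ((h1.trans h2).trans_lt M.ground_finite.encard_lt_top).ne

theorem cast_rk (X : Set α) : ((rk M X : ℕ) : ℕ∞) = M.eRk X :=
  ENat.natCast_toNat (eRk_ne_top' X)

theorem rk_mono' {X Y : Set α} (h : X ⊆ Y) : rk M X ≤ rk M Y := by
  have := M.eRk_mono h
  rw [← cast_rk, ← cast_rk] at this
  exact_mod_cast this

theorem rk_union_le (X Y : Set α) : rk M (X ∪ Y) ≤ rk M X + rk M Y := by
  have := M.eRk_union_le_eRk_add_eRk X Y
  rw [← cast_rk, ← cast_rk, ← cast_rk] at this
  exact_mod_cast this

theorem rk_insert_le (x : α) (X : Set α) : rk M (insert x X) ≤ rk M X + 1 := by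
  have := M.eRk_insert_le_add_one x X
  rw [← cast_rk, ← cast_rk] at this
  exact_mod_cast this

omit [M.Finite] in
theorem rk_empty : rk M ∅ = 0 := by
  unfold rk; simp

omit [M.Finite] in
theorem rk_of_isBasis {I X : Set α} (h : M.IsBasis I X) : rk M X = I.ncard := by
  unfold rk
  rw [← h.encard_eq_eRk]
  rfl

theorem ncard_le_rk {I X : Set α} (hI : M.Indep I) (hIX : I ⊆ X) : I.ncard ≤ rk M X := by
  have := hI.encard_le_eRk_of_subset hIX
  rw [← cast_rk, ← (LPData.fin hI.subset_ground).cast_ncard_eq] at this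
  exact_mod_cast this

omit [M.Finite] in
theorem rk_ground {B : Set α} (hB : M.IsBase B) : rk M M.E = B.ncard :=
  rk_of_isBasis hB.isBasis_ground

theorem rk_cl {C K : Set α} (hC : M.IsCircuit C) (hCK : C ⊆ K) :
    rk M (M.closure C ∩ K) + 1 = C.ncard := by
  have := LPData.rk_circuit hC hCK
  rw [← cast_rk] at this
  exact_mod_cast this

/-- the rank is additive over a separator -/
theorem rk_sep {S : Set α} (hS : Sep M S) (hSE : S ⊆ M.E) :
    rk M S + rk M (M.E \ S) ≤ rk M M.E := by
  obtain ⟨I, hI⟩ := M.exists_isBasis S hSE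
  obtain ⟨J, hJ⟩ := M.exists_isBasis (M.E \ S) sdiff_subset
  have hind : M.Indep (I ∪ J) := by
    rw [Matroid.indep_iff_forall_subset_not_isCircuit (union_subset hI.indep.subset_ground
      hJ.indep.subset_ground)]
    intro C hCs hC
    rcases hS C hC with h | h
    · apply hC.not_indep
      apply hI.indep.subset
      intro x hx
      rcases hCs hx with h1 | h1
      · exact h1
      · exact absurd (h hx) (hJ.subset h1).2
    · apply hC.not_indep
      apply hJ.indep.subset
      intro x hx
      rcases hCs hx with h1 | h1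
      · exact absurd (hI.subset h1) (disjoint_left.1 h hx)
      · exact h1
  have hd : Disjoint I J := by
    rw [disjoint_left]
    intro x hx hx'
    exact (hJ.subset hx').2 (hI.subset hx)
  rw [rk_of_isBasis hI, rk_of_isBasis hJ,
    ← ncard_union_eq hd (LPData.fin hI.indep.subset_ground) (LPData.fin hJ.indep.subset_ground)]
  exact ncard_le_rk hind hind.subset_ground

theorem rk_modu {F G K : Set α} (hF : F ⊆ K) (hG : G ⊆ K) (h : Modu M F G) :
    rk M F + rk M G ≤ rk M K + rk M (F ∩ G) := by
  obtain ⟨B₁, B₂, h1, h2, h3⟩ := h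
  rw [rk_of_isBasis h1, rk_of_isBasis h2,
    ← ncard_union_add_ncard_inter B₁ B₂ (LPData.fin h1.indep.subset_ground) (LPData.fin h2.indep.subset_ground)]
  have h4 := ncard_le_rk h3 (union_subset (h1.subset.trans hF) (h2.subset.trans hG))
  have h5 := ncard_le_rk (h1.indep.subset (inter_subset_left (s := B₁) (t := B₂)))
    (inter_subset_inter h1.subset h2.subset)
  omega

end rk

/-! ### Components -/

theorem sep_ground (M : Matroid α) : Sep M M.E := fun _ hC => Or.inl hC.subset_ground

/-- every element is in a component -/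
theorem exists_comp [M.Finite] {x : α} (hx : x ∈ M.E) : ∃ K, Comp M K ∧ x ∈ K := by
  classical
  let Ss : Set (Set α) := {S | S ⊆ M.E ∧ x ∈ S ∧ Sep M S}
  have hne : Ss.Nonempty := ⟨M.E, Subset.rfl, hx, sep_ground M⟩
  have hf : Ss.Finite := M.ground_finite.finite_subsets.subset fun S h => h.1
  obtain ⟨K, hK⟩ := hf.exists_minimal hne
  refine ⟨K, ⟨hK.prop.1, ⟨x, hK.prop.2.1⟩, hK.prop.2.2, ?_⟩, hK.prop.2.1⟩
  intro K' hK' hne' hs
  by_cases hxK : x ∈ K'
  · exact hK.le_of_le ⟨hK'.trans hK.prop.1, hxK, hs⟩ hK'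
  · exfalso
    have h1 : K \ K' ∈ Ss := by
      refine ⟨sdiff_subset.trans hK.prop.1, ⟨hK.prop.2.1, hxK⟩, ?_⟩
      have h2 := hK.prop.2.2.inter hs.compl
      have h3 : K ∩ (M.E \ K') = K \ K' := by
        ext y
        simp only [mem_inter_iff, mem_sdiff]
        constructor
        · rintro ⟨h, _, h'⟩; exact ⟨h, h'⟩
        · rintro ⟨h, h'⟩; exact ⟨h, hK.prop.1 h, h'⟩
      rwa [h3] at h2
    obtain ⟨y, hy⟩ := hne'
    exact (hK.le_of_le h1 sdiff_subset (hK' hy)).2 hy

theorem comp_eq {K K' : Set α} (hK : Comp M K) (hK' : Comp M K') {x : α} (hx : x ∈ K)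
    (hx' : x ∈ K') : K = K' := by
  have h1 : Sep M (K ∩ K') := hK.2.2.1.inter hK'.2.2.1
  have h2 := hK.2.2.2 _ inter_subset_left ⟨x, hx, hx'⟩ h1
  have h3 := hK'.2.2.2 _ inter_subset_right ⟨x, hx, hx'⟩ h1
  exact subset_antisymm (fun y hy => (h2 hy).2) (fun y hy => (h3 hy).1)

/-- the union of the components with smaller index -/
def low (M : Matroid α) (idx : Set α → ℕ) (K : Set α) : Set α :=
  {x | ∃ K', Comp M K' ∧ x ∈ K' ∧ idx K' < idx K}

theorem low_sub (idx : Set α → ℕ) (K : Set α) : low M idx K ⊆ M.E := by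
  rintro x ⟨K', h1, h2, _⟩; exact h1.1 h2

theorem sep_low (idx : Set α → ℕ) (K : Set α) : Sep M (low M idx K) := by
  intro C hC
  by_cases h : Disjoint C (low M idx K)
  · exact Or.inr h
  · left
    obtain ⟨x, hxC, K', h1, h2, h3⟩ := not_disjoint_iff.1 h
    intro y hy
    exact ⟨K', h1, h1.2.2.1.sub hC hxC h2 hy, h3⟩

theorem Sep.union {K L : Set α} (hK : Sep M K) (hL : Sep M L) : Sep M (K ∪ L) := by
  intro C hC
  by_cases h : Disjoint C (K ∪ L)
  · exact Or.inr h
  · left
    obtain ⟨x, hxC, hx | hx⟩ := not_disjoint_iff.1 h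
    · exact (hK.sub hC hxC hx).trans subset_union_left
    · exact (hL.sub hC hxC hx).trans subset_union_right

/-- the initial pieces of a component -/
def Piece (M : Matroid α) (a b : Set α → α) (K S : Set α) : Prop :=
  S = ∅ ∨ S = K ∨ (∃ C F, Cl M K C F ∧ a K ∈ F ∧ S = F) ∨
    (∃ C F, Cl M K C F ∧ b K ∈ F ∧ S = K \ F)

theorem cl_subK {K C F : Set α} (h : Cl M K C F) : F ⊆ K := by
  rw [h.2.2]; exact inter_subset_right

theorem Piece.sub {a b : Set α → α} {K S : Set α} (h : Piece M a b K S) : S ⊆ K := by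
  rcases h with rfl | rfl | ⟨C, F, h, _, rfl⟩ | ⟨C, F, h, _, rfl⟩
  · exact empty_subset _
  · exact Subset.rfl
  · exact cl_subK h
  · exact sdiff_subset

theorem Piece.chain {a b : Set α → α} {K S T : Set α} (hg : GoodK M K (a K) (b K))
    (hS : Piece M a b K S) (hT : Piece M a b K T) : S ⊆ T ∨ T ⊆ S := by
  have hS' := hS.sub
  have hT' := hT.sub
  rcases hS with rfl | rfl | ⟨C, F, h, haF, rfl⟩ | ⟨C, F, h, hbF, rfl⟩
  · exact Or.inl (empty_subset _)
  · exact Or.inr hT'
  · rcases hT with rfl | rfl | ⟨C', F', h', haF', rfl⟩ | ⟨C', F', h', hbF', rfl⟩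
    · exact Or.inr (empty_subset _)
    · exact Or.inl hS'
    · exact ((hg C S h).2.1 C' T h').1 haF haF'
    · rcases ((hg C S h).2.1 C' F' h').2.2 haF hbF' with h1 | h1
      · left
        intro x hx
        exact ⟨hS' hx, fun h2 => disjoint_left.1 h1 hx h2⟩
      · right
        rintro x ⟨hx, hx2⟩
        rcases h1 hx with h3 | h3
        · exact h3
        · exact absurd h3 hx2
  · rcases hT with rfl | rfl | ⟨C', F', h', haF', rfl⟩ | ⟨C', F', h', hbF', rfl⟩
    · exact Or.inr (empty_subset _)
    · exact Or.inl hS'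
    · rcases ((hg C' T h').2.1 C F h).2.2 haF' hbF with h1 | h1
      · right
        intro x hx
        exact ⟨hT' hx, fun h2 => disjoint_left.1 h1 hx h2⟩
      · left
        rintro x ⟨hx, hx2⟩
        rcases h1 hx with h3 | h3
        · exact h3
        · exact absurd h3 hx2
    · rcases ((hg C F h).2.1 C' F' h').2.1 hbF hbF' with h1 | h1
      · right
        rintro x ⟨hx, hx2⟩
        exact ⟨hx, fun h3 => hx2 (h1 h3)⟩
      · left
        rintro x ⟨hx, hx2⟩
        exact ⟨hx, fun h3 => hx2 (h1 h3)⟩

/-- The core of the argument: an `r`-element set obeying the rank bounds of the initial sets is a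
base. -/
theorem isBase_of_bounds [M.Finite] (a b : Set α → α)
    (hg : ∀ K, Comp M K → GoodK M K (a K) (b K)) (idx : Set α → ℕ)
    {B : Set α} (hBE : B ⊆ M.E) (hBr : B.ncard = rk M M.E)
    (hb : ∀ K S, Comp M K → Piece M a b K S → (B ∩ (low M idx K ∪ S)).ncard ≤
      rk M (low M idx K ∪ S) ∧ (B \ (low M idx K ∪ S)).ncard ≤ rk M (M.E \ (low M idx K ∪ S))) :
    M.IsBase B := by
  have hBf : B.Finite := LPData.fin hBE
  have hfin : ∀ X, (B ∩ X).Finite := fun X => hBf.subset inter_subset_left
  have hsplit : ∀ X, (B ∩ X).ncard + (B \ X).ncard = B.ncard :=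
    fun X => ncard_inter_add_ncard_sdiff_eq_ncard B X hBf
  have hind : M.Indep B := by
    rw [Matroid.indep_iff_forall_subset_not_isCircuit hBE]
    intro C hCB hC
    obtain ⟨x, hxC⟩ := hC.nonempty
    obtain ⟨K, hK, hxK⟩ := exists_comp (hC.subset_ground hxC)
    have hCK : C ⊆ K := hK.2.2.1.sub hC hxC hxK
    let L := low M idx K
    have hLE : L ⊆ M.E := low_sub idx K
    have hLsep : Sep M L := sep_low idx K
    have hLK : Disjoint L K := by
      rw [disjoint_left]
      rintro y ⟨K', h1, h2, h3⟩ hy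
      have := comp_eq h1 hK h2 hy
      rw [this] at h3
      exact lt_irrefl _ h3
    -- the bound at `L`
    have hL : (B ∩ L).ncard = rk M L := by
      have h1 := hb K ∅ hK (Or.inl rfl)
      rw [union_empty] at h1
      have h2 := rk_sep hLsep hLE
      have h3 := hsplit L
      change (B ∩ L).ncard ≤ rk M L ∧ (B \ L).ncard ≤ rk M (M.E \ L) at h1
      omega
    have hLKe : (B ∩ (L ∪ K)).ncard = rk M (L ∪ K) ∧
        (B \ (L ∪ K)).ncard = rk M (M.E \ (L ∪ K)) := by
      have h1 := hb K K hK (Or.inr (Or.inl rfl))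
      have h2 := rk_sep (hLsep.union hK.2.2.1) (union_subset hLE hK.1)
      have h3 := hsplit (L ∪ K)
      change (B ∩ (L ∪ K)).ncard ≤ rk M (L ∪ K) ∧ (B \ (L ∪ K)).ncard ≤ rk M (M.E \ (L ∪ K)) at h1
      omega
    have hdec : ∀ S, S ⊆ K → (B ∩ (L ∪ S)).ncard = (B ∩ L).ncard + (B ∩ S).ncard := by
      intro S hS
      rw [inter_union_distrib_left]
      apply ncard_union_eq _ (hfin _) (hfin _)
      exact (hLK.mono_right hS).mono inter_subset_right inter_subset_right
    have hKe : rk M K ≤ (B ∩ K).ncard ∧ (B ∩ K).ncard ≤ rk M K := by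
      constructor
      · have h1 := hdec K Subset.rfl
        -- additivity over the separator `L`
        have h2 : rk M L + rk M K ≤ rk M (L ∪ K) := by
          obtain ⟨I, hI⟩ := M.exists_isBasis L hLE
          obtain ⟨J, hJ⟩ := M.exists_isBasis K hK.1
          have hind : M.Indep (I ∪ J) := by
            rw [Matroid.indep_iff_forall_subset_not_isCircuit (union_subset
              hI.indep.subset_ground hJ.indep.subset_ground)]
            intro D hDs hD
            rcases hLsep D hD with h | h
            · apply hD.not_indep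
              apply hI.indep.subset
              intro y hy
              rcases hDs hy with h1 | h1
              · exact h1
              · exact absurd (hJ.subset h1) (disjoint_left.1 hLK (h hy))
            · apply hD.not_indep
              apply hJ.indep.subset
              intro y hy
              rcases hDs hy with h1 | h1
              · exact absurd (hI.subset h1) (disjoint_left.1 h hy)
              · exact h1
          have hd : Disjoint I J := hLK.mono hI.subset hJ.subset
          rw [rk_of_isBasis hI, rk_of_isBasis hJ,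
            ← ncard_union_eq hd (LPData.fin hI.indep.subset_ground) (LPData.fin hJ.indep.subset_ground)]
          exact ncard_le_rk hind (union_subset_union hI.subset hJ.subset)
        omega
      · have h1 := hdec K Subset.rfl
        have h2 := rk_union_le (M := M) L K
        omega
    -- bounds for the flats
    have hA : ∀ C' F, Cl M K C' F → a K ∈ F → (B ∩ F).ncard ≤ rk M F := by
      intro C' F hCl haF
      have h1 := (hb K F hK (Or.inr (Or.inr (Or.inl ⟨C', F, hCl, haF, rfl⟩)))).1
      have h2 := hdec F (cl_subK hCl)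
      have h3 := rk_union_le (M := M) L F
      change (B ∩ (L ∪ F)).ncard ≤ rk M (L ∪ F) at h1
      omega
    have hBb : ∀ C' F, Cl M K C' F → b K ∈ F → (B ∩ F).ncard ≤ rk M F := by
      intro C' F hCl hbF
      have hFK := cl_subK hCl
      have h1 := (hb K (K \ F) hK (Or.inr (Or.inr (Or.inr ⟨C', F, hCl, hbF, rfl⟩)))).2
      change (B \ (L ∪ K \ F)).ncard ≤ rk M (M.E \ (L ∪ K \ F)) at h1
      have e1 : B \ (L ∪ K \ F) = (B ∩ F) ∪ (B \ (L ∪ K)) := by
        ext y
        simp only [mem_sdiff, mem_union, mem_inter_iff]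
        constructor
        · rintro ⟨h2, h3⟩
          by_cases hyF : y ∈ F
          · exact Or.inl ⟨h2, hyF⟩
          · right
            refine ⟨h2, ?_⟩
            rintro (h4 | h4)
            · exact h3 (Or.inl h4)
            · exact h3 (Or.inr ⟨h4, hyF⟩)
        · rintro (⟨h2, h3⟩ | ⟨h2, h3⟩)
          · refine ⟨h2, ?_⟩
            rintro (h4 | h4)
            · exact disjoint_left.1 hLK h4 (hFK h3)
            · exact h4.2 h3
          · refine ⟨h2, ?_⟩
            rintro (h4 | h4)
            · exact h3 (Or.inl h4)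
            · exact h3 (Or.inr h4.1)
      have e2 : M.E \ (L ∪ K \ F) = F ∪ (M.E \ (L ∪ K)) := by
        ext y
        simp only [mem_sdiff, mem_union]
        constructor
        · rintro ⟨h2, h3⟩
          by_cases hyF : y ∈ F
          · exact Or.inl hyF
          · right
            refine ⟨h2, ?_⟩
            rintro (h4 | h4)
            · exact h3 (Or.inl h4)
            · exact h3 (Or.inr ⟨h4, hyF⟩)
        · rintro (h3 | ⟨h2, h3⟩)
          · refine ⟨hK.1 (hFK h3), ?_⟩
            rintro (h4 | h4)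
            · exact disjoint_left.1 hLK h4 (hFK h3)
            · exact h4.2 h3
          · refine ⟨h2, ?_⟩
            rintro (h4 | h4)
            · exact h3 (Or.inl h4)
            · exact h3 (Or.inr h4.1)
      have hd : Disjoint (B ∩ F) (B \ (L ∪ K)) := by
        rw [disjoint_left]
        rintro y ⟨_, h3⟩ ⟨_, h4⟩
        exact h4 (Or.inr (hFK h3))
      rw [e1, e2, ncard_union_eq hd (hfin _) (hBf.subset sdiff_subset), hLKe.2] at h1
      have h3 := rk_union_le (M := M) F (M.E \ (L ∪ K))
      omega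
    -- the circuit `C`
    have hF : Cl M K C (M.closure C ∩ K) := ⟨hC, hCK, rfl⟩
    have hrC := rk_cl hC hCK
    have hCF : C ⊆ B ∩ (M.closure C ∩ K) :=
      subset_inter hCB (subset_inter (M.subset_closure C hC.subset_ground) hCK)
    have hcard : C.ncard ≤ (B ∩ (M.closure C ∩ K)).ncard := ncard_le_ncard hCF (hfin _)
    by_cases haF : a K ∈ M.closure C ∩ K
    · have := hA C _ hF haF
      omega
    · by_cases hbF : b K ∈ M.closure C ∩ K
      · have := hBb C _ hF hbF
        omega
      · obtain ⟨C₁, F₁, C₂, F₂, h1, h2, h3, h4, h5, h6, h7⟩ := (hg K hK C _ hF).2.2 haF hbF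
        have b1 := hA C₁ F₁ h1 h3
        have b2 := hBb C₂ F₂ h2 h4
        have b3 := rk_modu (cl_subK h1) (cl_subK h2) h7
        have hu : F₁ ∪ F₂ = K := subset_antisymm (union_subset (cl_subK h1) (cl_subK h2)) h6
        have b4 := ncard_union_add_ncard_inter (B ∩ F₁) (B ∩ F₂) (hfin _) (hfin _)
        rw [← inter_union_distrib_left, hu, ← inter_inter_distrib_left, ← h5] at b4
        rw [← h5] at b3
        omega
  obtain ⟨B', hB', hBB'⟩ := hind.exists_isBase_superset
  have h1 := rk_ground hB'
  have h2 : B = B' := Set.eq_of_subset_of_ncard_le hBB' (by omega) (LPData.fin hB'.subset_ground)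
  rw [h2]; exact hB'

/-- **A matroid satisfying the sentence is a lattice path matroid.** -/
theorem isLatticePathMatroid_of_good [M.Finite] (hG : Good M) : IsLatticePathMatroid M := by
  classical
  have hE : M.E.Finite := M.ground_finite
  rcases isEmpty_or_nonempty α with hemp | hnonemp
  · have : IsEmpty (Fin (0 + 0)) := inferInstanceAs (IsEmpty (Fin 0))
    refine ⟨0, 0, ⟨fun _ => false, by simp⟩, ⟨fun _ => false, by simp⟩, fun k _ => le_rfl,
      Equiv.equivOfIsEmpty _ _, fun B => ?_⟩
    have hBe : ∀ X : Set α, X = ∅ := fun X => Set.eq_empty_of_isEmpty X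
    constructor
    · intro _
      refine ⟨⟨fun _ => false, by simp⟩, fun k _ => le_rfl, fun k _ => le_rfl, ?_⟩
      rw [hBe B, hBe {x | _}]
    · intro _
      obtain ⟨B', hB'⟩ := M.exists_isBase
      rw [hBe B, ← hBe B']; exact hB'
  choose! a ha b hb hg using hG
  -- an index for the components
  have hcomps : {K | Comp M K}.Finite := hE.finite_subsets.subset fun K h => h.1
  obtain ⟨idx, hidx⟩ := Set.countable_iff_exists_injOn.1 hcomps.countable
  let Zs : Set (Set α) := {Z | ∃ K S, Comp M K ∧ Piece M a b K S ∧ Z = low M idx K ∪ S}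
  have hZsub : ∀ Z ∈ Zs, Z ⊆ M.E := by
    rintro Z ⟨K, S, hK, hS, rfl⟩
    exact union_subset (low_sub idx K) (hS.sub.trans hK.1)
  have hlt : ∀ K K' S S', Comp M K → Comp M K' → Piece M a b K S → Piece M a b K' S' →
      idx K < idx K' → low M idx K ∪ S ⊆ low M idx K' ∪ S' := by
    rintro K K' S S' hK hK' hS hS' hlt x (hx | hx)
    · left
      obtain ⟨K₀, h1, h2, h3⟩ := hx
      exact ⟨K₀, h1, h2, by omega⟩
    · left
      exact ⟨K, hK, hS.sub hx, hlt⟩
  have hchain : ∀ Z ∈ Zs, ∀ Z' ∈ Zs, Z ⊆ Z' ∨ Z' ⊆ Z := by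
    rintro Z ⟨K, S, hK, hS, rfl⟩ Z' ⟨K', S', hK', hS', rfl⟩
    rcases lt_trichotomy (idx K) (idx K') with h | h | h
    · exact Or.inl (hlt K K' S S' hK hK' hS hS' h)
    · have hKK : K = K' := hidx hK hK' h
      subst hKK
      rcases Piece.chain (hg K hK) hS hS' with h1 | h1
      · exact Or.inl (union_subset_union_right _ h1)
      · exact Or.inr (union_subset_union_right _ h1)
    · exact Or.inr (hlt K' K S' S hK' hK hS' hS h)
  obtain ⟨B₀, hB₀⟩ := M.exists_isBase
  obtain ⟨r, hr⟩ : ∃ r, r = rk M M.E := ⟨_, rfl⟩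
  have hrle : r ≤ M.E.ncard := by
    rw [hr, rk_ground hB₀]
    exact ncard_le_ncard hB₀.subset_ground hE
  obtain ⟨m, hm⟩ : ∃ m, M.E.ncard = m + r := ⟨M.E.ncard - r, by omega⟩
  obtain ⟨e, he⟩ := exists_enum hE Zs hZsub hchain hm
  -- rank functions of initial and final segments
  have hstep : ∀ X : Set α, ∀ x, rk M X ≤ rk M (insert x X) ∧ rk M (insert x X) ≤ rk M X + 1 :=
    fun X x => ⟨rk_mono' (subset_insert _ _), rk_insert_le x X⟩
  have hQ0 : rk M (pre e 0) = 0 := by rw [pre_zero, rk_empty]
  have hQr : rk M (pre e (m + r)) = r := by rw [pre_top, hr]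
  obtain ⟨Q, hQ, _⟩ := LatticePath.exists_of_height (fun k => rk M (pre e k)) hQ0 hQr (by
    intro k hk
    have := pre_succ e hk
    rw [this]
    exact hstep _ _)
  have hcs : ∀ k, (hk : k < m + r) → M.E \ pre e k = insert (e.symm ⟨k, hk⟩ : α) (M.E \ pre e (k+1)) := by
    intro k hk
    rw [pre_succ e hk]
    ext y
    simp only [mem_sdiff, mem_insert_iff, not_or]
    constructor
    · rintro ⟨h1, h2⟩
      by_cases h3 : y = (e.symm ⟨k, hk⟩ : α)
      · exact Or.inl h3
      · exact Or.inr ⟨h1, h3, h2⟩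
    · rintro (rfl | ⟨h1, h2, h3⟩)
      · exact ⟨Subtype.coe_prop _, not_mem_pre e hk⟩
      · exact ⟨h1, h3⟩
  have hcr : ∀ k, rk M (M.E \ pre e k) ≤ r := fun k => by
    have h1 : rk M (M.E \ pre e k) ≤ rk M M.E := rk_mono' sdiff_subset
    omega
  obtain ⟨P, hP, _⟩ := LatticePath.exists_of_height (fun k => r - rk M (M.E \ pre e k))
    (m := m) (r := r) (by
      have h1 : rk M (M.E \ pre e 0) = rk M M.E := by rw [pre_zero, sdiff_empty]
      omega)
    (by
      have h1 : rk M (M.E \ pre e (m + r)) = 0 := by rw [pre_top, Set.sdiff_self, rk_empty]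
      omega) (by
    intro k hk
    have h1 := hcs k hk
    have h2 := hstep (M.E \ pre e (k+1)) (e.symm ⟨k, hk⟩ : α)
    rw [← h1] at h2
    have h3 := hcr k
    have h4 := hcr (k+1)
    omega)
  refine ⟨m, r, P, Q, ?_, e, ?_⟩
  · intro k hk
    rw [hP k hk, hQ k hk]
    have h1 := rk_union_le (M := M) (pre e k) (M.E \ pre e k)
    rw [union_sdiff_cancel (pre_sub e k), ← hr] at h1
    omega
  · intro B
    constructor
    · intro hB
      have hBE := hB.subset_ground
      have hBf : B.Finite := hE.subset hBE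
      have hBc : B.ncard = r := by rw [hr, rk_ground hB]
      obtain ⟨R, hR, hRn⟩ := LatticePath.exists_of_height (m := m) (r := r)
        (fun k => (B ∩ pre e k).ncard) (by rw [pre_zero, inter_empty, ncard_empty])
        (by rw [pre_top, inter_eq_left.2 hBE, hBc]) (by
          intro k hk
          have h1 := ncard_inter_pre_succ e hE B hk
          by_cases h : (e.symm ⟨k, hk⟩ : α) ∈ B
          · rw [h1.1 h]; omega
          · rw [h1.2 h]; omega)
      refine ⟨R, ?_, ?_, ?_⟩
      · intro k hk
        rw [hP k hk, hR k hk]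
        have h1 := ncard_inter_add_ncard_sdiff_eq_ncard B (pre e k) hBf
        have h2 : (B \ pre e k).ncard ≤ rk M (M.E \ pre e k) :=
          ncard_le_rk (hB.indep.subset sdiff_subset) (sdiff_subset_sdiff_left hBE)
        omega
      · intro k hk
        rw [hQ k hk, hR k hk]
        exact ncard_le_rk (hB.indep.subset inter_subset_left) inter_subset_right
      · ext x
        constructor
        · intro hx
          have hxE := hBE hx
          refine ⟨hxE, ?_⟩
          rw [hRn]
          have h1 := (ncard_inter_pre_succ e hE B (k := (e ⟨x, hxE⟩ : ℕ)) (e ⟨x, hxE⟩).2).1 (by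
            simpa using hx)
          exact h1
        · rintro ⟨hxE, hx⟩
          rw [hRn] at hx
          by_contra hxB
          have h1 := (ncard_inter_pre_succ e hE B (k := (e ⟨x, hxE⟩ : ℕ)) (e ⟨x, hxE⟩).2).2 (by
            simpa using hxB)
          omega
    · rintro ⟨R, hPR, hRQ, hBR⟩
      have hBR' : B = northSet e R := hBR
      have hBE : B ⊆ M.E := by rw [hBR']; exact northSet_sub e R
      have hBf : B.Finite := hE.subset hBE
      have hBc : B.ncard = r := by rw [hBR']; exact ncard_northSet e R hE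
      apply isBase_of_bounds a b hg idx hBE (by rw [hBc, hr])
      intro K S hK hS
      obtain ⟨k, hk, hkeq⟩ := exists_eq_pre e hE (hZsub _ ⟨K, S, hK, hS, rfl⟩)
        (he _ ⟨K, S, hK, hS, rfl⟩)
      rw [hkeq]
      have h1 : (B ∩ pre e k).ncard = R.height k := by
        rw [hBR']; exact ncard_northSet_pre e R hE hk
      have h2 := hPR k hk
      have h3 := hRQ k hk
      rw [hP k hk] at h2
      rw [hQ k hk] at h3
      have h4 := ncard_inter_add_ncard_sdiff_eq_ncard B (pre e k) hBf
      have h5 := hcr k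
      constructor <;> omega

end Pool.Agent.TH424
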