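import Mathlib

set_option autoImplicit false

/-!
# Monadic second-order logic of matroids, and lattice path matroids: the definitions
-/

namespace Pool.Agent.TH424

universe u

/-- Formulas of the monadic second-order logic `MS₀` of matroids.  Variables are natural numbers;
they range over subsets of the ground set.  The atomic formulas are `ind x` (the set `x` is
independent) and `sub x y` (`x` is a subset of `y`). -/
inductive MSFormula : Type
  | ind (x : ℕ) : MSFormula
  | sub (x y : ℕ) : MSFormula
  | neg (φ : MSFormula) : MSFormula
  | and (φ ψ : MSFormula) : MSFormula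
  | or (φ ψ : MSFormula) : MSFormula
  | imp (φ ψ : MSFormula) : MSFormula
  | ex (x : ℕ) (φ : MSFormula) : MSFormula
  | all (x : ℕ) (φ : MSFormula) : MSFormula

namespace MSFormula

/-- `φ.Sat M v`: the formula `φ` holds in the matroid `M` when each variable `x` is interpreted as
the set `v x`.  The quantifiers range over all subsets of the ground set of `M`. -/
def Sat {α : Type u} (M : Matroid α) : MSFormula → (ℕ → Set α) → Prop
  | ind x, v => M.Indep (v x)
  | sub x y, v => v x ⊆ v y
  | neg φ, v => ¬ φ.Sat M v
  | and φ ψ, v => φ.Sat M v ∧ ψ.Sat M v
  | or φ ψ, v => φ.Sat M v ∨ ψ.Sat M v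
  | imp φ ψ, v => φ.Sat M v → ψ.Sat M v
  | ex x φ, v => ∃ X : Set α, X ⊆ M.E ∧ φ.Sat M (Function.update v x X)
  | all x φ, v => ∀ X : Set α, X ⊆ M.E → φ.Sat M (Function.update v x X)

/-- The free variables of a formula. -/
def free : MSFormula → Finset ℕ
  | ind x => {x}
  | sub x y => {x, y}
  | neg φ => φ.free
  | and φ ψ => φ.free ∪ ψ.free
  | or φ ψ => φ.free ∪ ψ.free
  | imp φ ψ => φ.free ∪ ψ.free
  | ex x φ => φ.free.erase x
  | all x φ => φ.free.erase x

/-- A sentence is a formula with no free variables. -/
def IsSentence (φ : MSFormula) : Prop := φ.free = ∅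

/-- A matroid satisfies a formula when the formula holds under every interpretation of the
variables by subsets of the ground set.  For a sentence all interpretations give the same truth
value (`MSFormula.sat_congr`). -/
def Holds {α : Type u} (M : Matroid α) (φ : MSFormula) : Prop :=
  ∀ v : ℕ → Set α, (∀ x, v x ⊆ M.E) → φ.Sat M v

/-- Whether a formula holds depends only on the interpretation of its free variables. -/
theorem sat_congr {α : Type u} (M : Matroid α) (φ : MSFormula) :
    ∀ (v w : ℕ → Set α), (∀ x ∈ φ.free, v x = w x) → (φ.Sat M v ↔ φ.Sat M w) := by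
  induction φ with
  | ind x => intro v w h; simp [Sat, h x (by simp [free])]
  | sub x y => intro v w h; simp [Sat, h x (by simp [free]), h y (by simp [free])]
  | neg φ ih => intro v w h; simp only [Sat]; rw [ih v w h]
  | and φ ψ ih1 ih2 =>
    intro v w h; simp only [Sat]
    rw [ih1 v w (fun x hx => h x (by simp [free, hx])), ih2 v w (fun x hx => h x (by simp [free, hx]))]
  | or φ ψ ih1 ih2 =>
    intro v w h; simp only [Sat]
    rw [ih1 v w (fun x hx => h x (by simp [free, hx])), ih2 v w (fun x hx => h x (by simp [free, hx]))]
  | imp φ ψ ih1 ih2 =>
    intro v w h; simp only [Sat]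
    rw [ih1 v w (fun x hx => h x (by simp [free, hx])), ih2 v w (fun x hx => h x (by simp [free, hx]))]
  | ex x φ ih =>
    intro v w h; simp only [Sat]
    refine exists_congr fun X => and_congr_right fun _ => ih _ _ fun y hy => ?_
    by_cases hyx : y = x
    · subst hyx; simp
    · simp only [Function.update_of_ne hyx]; exact h y (by simp [free, hy, hyx])
  | all x φ ih =>
    intro v w h; simp only [Sat]
    refine forall_congr' fun X => imp_congr_right fun _ => ih _ _ fun y hy => ?_
    by_cases hyx : y = x
    · subst hyx; simp
    · simp only [Function.update_of_ne hyx]; exact h y (by simp [free, hy, hyx])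

end MSFormula

/-- A lattice path from `(0,0)` to `(m,r)`: its `m + r` unit steps in order, each of them North
(`true`) or East (`false`), exactly `r` of them North. -/
structure LatticePath (m r : ℕ) where
  /-- the `i`-th step is North -/
  north : Fin (m + r) → Bool
  /-- there are exactly `r` North steps -/
  card_north : (Finset.univ.filter fun i => north i = true).card = r

/-- The height (`y`-coordinate) of a lattice path after its first `k` steps. -/
def LatticePath.height {m r : ℕ} (P : LatticePath m r) (k : ℕ) : ℕ :=
  (Finset.univ.filter fun i : Fin (m + r) => (i : ℕ) < k ∧ P.north i = true).card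

/-- The path `P` never goes above the path `Q`: after every number of steps (that is, on every
antidiagonal `x + y = k`) the height of `P` is at most the height of `Q`. -/
def LatticePath.Below {m r : ℕ} (P Q : LatticePath m r) : Prop :=
  ∀ k ≤ m + r, P.height k ≤ Q.height k

/-- `M` is a lattice path matroid: for some lattice paths `P`, `Q` from `(0,0)` to `(m,r)` with `P`
never going above `Q`, and some bijection `e` of the ground set of `M` with the set of indices of
the `m + r` steps, the bases of `M` are exactly the sets of elements which `e` sends to the indices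
of the North steps of a lattice path `R` lying in the region between `P` and `Q`. -/
def IsLatticePathMatroid {α : Type u} (M : Matroid α) : Prop :=
  ∃ (m r : ℕ) (P Q : LatticePath m r), P.Below Q ∧
    ∃ e : M.E ≃ Fin (m + r), ∀ B : Set α, M.IsBase B ↔
      ∃ R : LatticePath m r, P.Below R ∧ R.Below Q ∧
        B = {x | ∃ h : x ∈ M.E, R.north (e ⟨x, h⟩) = true}

end Pool.Agent.TH424
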