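import Pool.Agent.TH424.MSODefs

set_option autoImplicit false

/-!
# A sentence describing lattice path matroids, and its meaning
-/

namespace Pool.Agent.TH424

universe u

open MSFormula Set

variable {α : Type u}

/-! ### Building blocks.  The first argument `n` is a variable that is larger than all variables in
use; the variables `n, n+1, …` are bound inside. -/

/-- the set `x` is empty -/
def fEmpty (n x : ℕ) : MSFormula := all n (sub x n)

/-- the set `x` has exactly one element -/
def fSing (n x : ℕ) : MSFormula :=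
  and (neg (fEmpty n x)) (all n (imp (sub n x) (or (fEmpty (n+1) n) (sub x n))))

/-- the set `x` is a circuit -/
def fCirc (n x : ℕ) : MSFormula :=
  and (neg (ind x)) (all n (imp (and (sub n x) (neg (ind n))) (sub x n)))

/-- the sets `x` and `y` are disjoint -/
def fDisj (n x y : ℕ) : MSFormula :=
  all n (imp (and (sub n x) (sub n y)) (fEmpty (n+1) n))

/-- every circuit is inside `k` or disjoint from `k` -/
def fSep (n k : ℕ) : MSFormula :=
  all n (imp (fCirc (n+1) n) (or (sub n k) (fDisj (n+1) n k)))

/-- `k` is a minimal nonempty separator -/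
def fComp (n k : ℕ) : MSFormula :=
  and (neg (fEmpty n k)) (and (fSep n k)
    (all n (imp (and (sub n k) (and (neg (fEmpty (n+1) n)) (fSep (n+1) n))) (sub k n))))

/-- `d ⊆ c ∪ x` -/
def fSubUnion (n d c x : ℕ) : MSFormula :=
  all n (imp (and (fSing (n+1) n) (sub n d)) (or (sub n c) (sub n x)))

/-- `c` is a circuit inside `k`, and `f` is the intersection of its closure with `k` -/
def fCl (n k c f : ℕ) : MSFormula :=
  and (fCirc n c) (and (sub c k) (and (sub f k)
    (all n (imp (and (fSing (n+1) n) (sub n k))
      (and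
        (imp (sub n f) (or (sub n c)
          (ex (n+1) (and (fCirc (n+2) (n+1)) (and (sub n (n+1)) (fSubUnion (n+2) (n+1) c n))))))
        (imp (or (sub n c)
          (ex (n+1) (and (fCirc (n+2) (n+1)) (and (sub n (n+1)) (fSubUnion (n+2) (n+1) c n)))))
          (sub n f)))))))

/-- `b` is a maximal independent subset of `f` -/
def fBasis (n b f : ℕ) : MSFormula :=
  and (ind b) (and (sub b f) (all n (imp (and (ind n) (and (sub b n) (sub n f))) (sub n b))))

/-- `f` and `g` have maximal independent subsets whose union is contained in an independent set -/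
def fMod (n f g : ℕ) : MSFormula :=
  ex n (ex (n+1) (ex (n+2) (and (fBasis (n+3) n f) (and (fBasis (n+3) (n+1) g)
    (and (ind (n+2)) (and (sub n (n+2)) (sub (n+1) (n+2))))))))

/-- `f = g ∩ h` -/
def fInter (n f g h : ℕ) : MSFormula :=
  and (sub f g) (and (sub f h) (all n (imp (and (sub n g) (sub n h)) (sub n f))))

section eval

variable {M : Matroid α} {v : ℕ → Set α}

theorem sat_fEmpty {n x : ℕ} (hx : x < n) : (fEmpty n x).Sat M v ↔ v x = ∅ := by
  simp only [fEmpty, Sat, Function.update_self, Function.update_of_ne hx.ne]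
  constructor
  · intro h; exact subset_empty_iff.1 (h ∅ (empty_subset _))
  · intro h X _; rw [h]; exact empty_subset _

theorem sat_fSing {n x : ℕ} (hx : x < n) (hv : v x ⊆ M.E) :
    (fSing n x).Sat M v ↔ ∃ a, v x = {a} := by
  simp only [fSing, Sat, sat_fEmpty hx, Function.update_self, Function.update_of_ne hx.ne,
    sat_fEmpty (Nat.lt_succ_self n)]
  constructor
  · rintro ⟨h1, h2⟩
    obtain ⟨a, ha⟩ := nonempty_iff_ne_empty.2 h1
    refine ⟨a, ?_⟩
    rcases h2 {a} (by simpa using hv ha) (by simpa using ha) with h | h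
    · simp at h
    · exact subset_antisymm h (by simpa using ha)
  · rintro ⟨a, ha⟩
    rw [ha]
    refine ⟨by simp, fun X _ hX => ?_⟩
    rcases subset_singleton_iff_eq.1 hX with h | h
    · exact Or.inl h
    · exact Or.inr h.ge

theorem sat_fCirc {n x : ℕ} (hx : x < n) (hv : v x ⊆ M.E) :
    (fCirc n x).Sat M v ↔ M.IsCircuit (v x) := by
  simp only [fCirc, Sat, Function.update_self, Function.update_of_ne hx.ne]
  rw [Matroid.isCircuit_iff_minimal_not_indep hv]
  constructor
  · rintro ⟨h1, h2⟩
    refine ⟨h1, fun Y hY hYx => h2 Y (hYx.trans hv) ⟨hYx, hY⟩⟩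
  · rintro ⟨h1, h2⟩
    exact ⟨h1, fun X _ hX => h2 hX.2 hX.1⟩

theorem sat_fDisj {n x y : ℕ} (hx : x < n) (hy : y < n) (hv : v x ⊆ M.E) :
    (fDisj n x y).Sat M v ↔ Disjoint (v x) (v y) := by
  simp only [fDisj, Sat, Function.update_self, Function.update_of_ne hx.ne,
    Function.update_of_ne hy.ne, sat_fEmpty (Nat.lt_succ_self n)]
  rw [disjoint_iff_inter_eq_empty]
  constructor
  · intro h; exact h _ (inter_subset_left.trans hv) ⟨inter_subset_left, inter_subset_right⟩
  · rintro h X _ ⟨h1, h2⟩
    exact subset_empty_iff.1 (h ▸ subset_inter h1 h2)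

/-- `K` is a separator: every circuit is inside `K` or disjoint from `K` -/
def Sep (M : Matroid α) (K : Set α) : Prop := ∀ C, M.IsCircuit C → C ⊆ K ∨ Disjoint C K

/-- `K` is a connected component: a minimal nonempty separator -/
def Comp (M : Matroid α) (K : Set α) : Prop :=
  K ⊆ M.E ∧ K.Nonempty ∧ Sep M K ∧ ∀ K' ⊆ K, K'.Nonempty → Sep M K' → K ⊆ K'

/-- `C` is a circuit contained in `K` and `F` is the part of its closure inside `K` -/
def Cl (M : Matroid α) (K C F : Set α) : Prop :=
  M.IsCircuit C ∧ C ⊆ K ∧ F = M.closure C ∩ K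

/-- the two sets have maximal independent subsets with independent union -/
def Modu (M : Matroid α) (F G : Set α) : Prop :=
  ∃ B₁ B₂, M.IsBasis B₁ F ∧ M.IsBasis B₂ G ∧ M.Indep (B₁ ∪ B₂)

theorem sat_fSep {n k : ℕ} (hk : k < n) :
    (fSep n k).Sat M v ↔ Sep M (v k) := by
  simp only [fSep, Sat, Sep]
  constructor
  · intro h C hC
    have h1 := h C hC.subset_ground
    rw [sat_fCirc (Nat.lt_succ_self n) (by simpa using hC.subset_ground),
      sat_fDisj (Nat.lt_succ_self n) (by omega) (by simpa using hC.subset_ground)] at h1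
    simp only [Function.update_self, Function.update_of_ne hk.ne] at h1
    exact h1 hC
  · intro h X hX
    rw [sat_fCirc (Nat.lt_succ_self n) (by simpa using hX),
      sat_fDisj (Nat.lt_succ_self n) (by omega) (by simpa using hX)]
    simp only [Function.update_self, Function.update_of_ne hk.ne]
    exact h X

theorem sat_fComp {n k : ℕ} (hk : k < n) (hv : v k ⊆ M.E) :
    (fComp n k).Sat M v ↔ Comp M (v k) := by
  simp only [fComp, Sat, Comp, sat_fEmpty hk, sat_fSep hk, Function.update_self,
    Function.update_of_ne hk.ne, sat_fEmpty (Nat.lt_succ_self n), sat_fSep (Nat.lt_succ_self n)]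
  rw [← ne_eq, ← nonempty_iff_ne_empty]
  constructor
  · rintro ⟨h1, h2, h3⟩
    exact ⟨hv, h1, h2, fun K' hK' hne hs => h3 K' (hK'.trans hv) ⟨hK', hne.ne_empty, hs⟩⟩
  · rintro ⟨_, h1, h2, h3⟩
    exact ⟨h1, h2, fun X hX h => h3 X h.1 (nonempty_iff_ne_empty.2 h.2.1) h.2.2⟩

theorem sat_fSubUnion {n d c x : ℕ} (hd : d < n) (hc : c < n) (hx : x < n) (hv : v d ⊆ M.E) :
    (fSubUnion n d c x).Sat M v ↔ v d ⊆ v c ∪ v x := by
  simp only [fSubUnion, Sat, Function.update_self, Function.update_of_ne hd.ne,
    Function.update_of_ne hc.ne, Function.update_of_ne hx.ne]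
  constructor
  · intro h a ha
    have haE : ({a} : Set α) ⊆ M.E := by simpa using hv ha
    have h1 := h {a} haE
    rw [sat_fSing (Nat.lt_succ_self n) (by simpa using haE)] at h1
    simp only [Function.update_self, singleton_subset_iff] at h1
    exact h1 ⟨⟨a, rfl⟩, ha⟩
  · intro h X hX
    rw [sat_fSing (Nat.lt_succ_self n) (by simpa using hX)]
    simp only [Function.update_self]
    rintro ⟨⟨a, rfl⟩, ha⟩
    simp only [singleton_subset_iff] at *
    exact h ha

theorem sat_fCl {n k c f : ℕ} (hk : k < n) (hc : c < n) (hf : f < n) (hvk : v k ⊆ M.E)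
    (hvc : v c ⊆ M.E) : (fCl n k c f).Sat M v ↔ Cl M (v k) (v c) (v f) := by
  have key : ∀ X : Set α, X ⊆ M.E → ∀ a, X = {a} →
      ((ex (n+1) (and (fCirc (n+2) (n+1)) (and (sub n (n+1))
        (fSubUnion (n+2) (n+1) c n)))).Sat M (Function.update v n X) ↔
      ∃ D, M.IsCircuit D ∧ a ∈ D ∧ D ⊆ v c ∪ {a}) := by
    intro X hX a ha
    simp only [Sat]
    constructor
    · rintro ⟨D, hD, h1, h2, h3⟩
      rw [sat_fCirc (by omega) (by simpa using hD)] at h1
      rw [sat_fSubUnion (by omega) (by omega) (by omega) (by simpa using hD)] at h3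
      simp only [Function.update_self, Function.update_of_ne (show c ≠ n + 1 by omega),
        Function.update_of_ne hc.ne, Function.update_of_ne (show n ≠ n + 1 by omega)] at h1 h2 h3
      subst ha
      exact ⟨D, h1, by simpa using h2, h3⟩
    · rintro ⟨D, h1, h2, h3⟩
      refine ⟨D, h1.subset_ground, ?_, ?_, ?_⟩
      · rw [sat_fCirc (by omega) (by simpa using h1.subset_ground)]
        simpa using h1
      · simp only [Function.update_self, Function.update_of_ne (show n ≠ n + 1 by omega)]
        subst ha; simpa using h2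
      · rw [sat_fSubUnion (by omega) (by omega) (by omega) (by simpa using h1.subset_ground)]
        simp only [Function.update_self, Function.update_of_ne (show c ≠ n + 1 by omega),
          Function.update_of_ne hc.ne, Function.update_of_ne (show n ≠ n + 1 by omega)]
        subst ha; exact h3
  have key2 : ∀ a, a ∈ M.E → (a ∈ M.closure (v c) ↔
      (a ∈ v c ∨ ∃ D, M.IsCircuit D ∧ a ∈ D ∧ D ⊆ v c ∪ {a})) := by
    intro a ha
    constructor
    · intro h
      by_cases hac : a ∈ v c
      · exact Or.inl hac
      · right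
        obtain ⟨D, h1, h2, h3⟩ := Matroid.exists_isCircuit_of_mem_closure h hac
        exact ⟨D, h2, h3, by simpa [union_singleton] using h1⟩
    · rintro (h | ⟨D, h1, h2, h3⟩)
      · exact M.mem_closure_of_mem h hvc
      · by_cases hac : a ∈ v c
        · exact M.mem_closure_of_mem hac hvc
        · rw [Matroid.mem_closure_iff_exists_isCircuit hac]
          exact ⟨D, by simpa [union_singleton] using h3, h1, h2⟩
  unfold fCl
  simp only [Sat.eq_4, Sat.eq_2, Sat.eq_8, Sat.eq_6, Sat.eq_5]
  rw [sat_fCirc hc hvc]
  unfold Cl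
  constructor
  · rintro ⟨h1, h2, h3, h4⟩
    refine ⟨h1, h2, ?_⟩
    apply subset_antisymm
    · intro a ha
      have haK := h3 ha
      have haE := hvk haK
      refine ⟨?_, haK⟩
      have h5 := h4 {a} (by simpa using haE)
      rw [key _ (by simpa using haE) a rfl, sat_fSing (Nat.lt_succ_self n) (by simpa using haE)] at h5
      simp only [Function.update_self, Function.update_of_ne hk.ne, Function.update_of_ne hf.ne,
        Function.update_of_ne hc.ne, singleton_subset_iff] at h5
      exact (key2 a haE).2 ((h5 ⟨⟨a, rfl⟩, haK⟩).1 ha)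
    · rintro a ⟨ha, haK⟩
      have haE := hvk haK
      have h5 := h4 {a} (by simpa using haE)
      rw [key _ (by simpa using haE) a rfl, sat_fSing (Nat.lt_succ_self n) (by simpa using haE)] at h5
      simp only [Function.update_self, Function.update_of_ne hk.ne, Function.update_of_ne hf.ne,
        Function.update_of_ne hc.ne, singleton_subset_iff] at h5
      exact (h5 ⟨⟨a, rfl⟩, haK⟩).2 ((key2 a haE).1 ha)
  · rintro ⟨h1, h2, h3⟩
    refine ⟨h1, h2, by rw [h3]; exact inter_subset_right, ?_⟩
    intro X hX
    rw [sat_fSing (Nat.lt_succ_self n) (by simpa using hX)]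
    simp only [Function.update_self, Function.update_of_ne hk.ne, Function.update_of_ne hf.ne,
        Function.update_of_ne hc.ne]
    rintro ⟨⟨a, rfl⟩, haK⟩
    have haE : a ∈ M.E := by simpa using hX
    rw [key _ (by simpa using haE) a rfl]
    simp only [singleton_subset_iff] at *
    rw [← key2 a haE, h3]
    exact ⟨fun h => h.1, fun h => ⟨h, haK⟩⟩

theorem sat_fBasis {n b f : ℕ} (hb : b < n) (hf : f < n) (hvf : v f ⊆ M.E) :
    (fBasis n b f).Sat M v ↔ M.IsBasis (v b) (v f) := by
  simp only [fBasis, Sat, Function.update_self, Function.update_of_ne hb.ne,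
    Function.update_of_ne hf.ne]
  rw [Matroid.isBasis_iff hvf]
  constructor
  · rintro ⟨h1, h2, h3⟩
    refine ⟨h1, h2, fun J hJ hbJ hJf => subset_antisymm hbJ (h3 J hJ.subset_ground ⟨hJ, hbJ, hJf⟩)⟩
  · rintro ⟨h1, h2, h3⟩
    exact ⟨h1, h2, fun X _ hX => (h3 X hX.1 hX.2.1 hX.2.2).ge⟩

theorem sat_fMod {n f g : ℕ} (hf : f < n) (hg : g < n) (hvf : v f ⊆ M.E) (hvg : v g ⊆ M.E) :
    (fMod n f g).Sat M v ↔ Modu M (v f) (v g) := by
  unfold fMod Modu
  simp only [Sat.eq_7, Sat.eq_4, Sat.eq_1, Sat.eq_2]
  constructor
  · rintro ⟨B₁, hB₁, B₂, hB₂, U, hU, h1, h2, h3, h4, h5⟩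
    rw [sat_fBasis (by omega) (by omega) ?_] at h1 h2
    · simp only [Function.update_self, Function.update_of_ne (show f ≠ n + 2 by omega),
        Function.update_of_ne (show f ≠ n + 1 by omega), Function.update_of_ne (show f ≠ n by omega),
        Function.update_of_ne (show g ≠ n + 2 by omega),
        Function.update_of_ne (show g ≠ n + 1 by omega), Function.update_of_ne (show g ≠ n by omega),
        Function.update_of_ne (show n ≠ n + 2 by omega),
        Function.update_of_ne (show n ≠ n + 1 by omega),
        Function.update_of_ne (show n + 1 ≠ n + 2 by omega)] at h1 h2 h3 h4 h5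
      exact ⟨B₁, B₂, h1, h2, h3.subset (union_subset h4 h5)⟩
    · simpa only [Function.update_self, Function.update_of_ne (show g ≠ n + 2 by omega),
        Function.update_of_ne (show g ≠ n + 1 by omega), Function.update_of_ne (show g ≠ n by omega)]
        using hvg
    · simpa only [Function.update_self, Function.update_of_ne (show f ≠ n + 2 by omega),
        Function.update_of_ne (show f ≠ n + 1 by omega), Function.update_of_ne (show f ≠ n by omega)]
        using hvf
  · rintro ⟨B₁, B₂, h1, h2, h3⟩
    refine ⟨B₁, h1.indep.subset_ground, B₂, h2.indep.subset_ground, B₁ ∪ B₂, h3.subset_ground, ?_⟩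
    rw [sat_fBasis (by omega) (by omega) ?_, sat_fBasis (by omega) (by omega) ?_]
    · simp only [Function.update_self, Function.update_of_ne (show f ≠ n + 2 by omega),
        Function.update_of_ne (show f ≠ n + 1 by omega), Function.update_of_ne (show f ≠ n by omega),
        Function.update_of_ne (show g ≠ n + 2 by omega),
        Function.update_of_ne (show g ≠ n + 1 by omega), Function.update_of_ne (show g ≠ n by omega),
        Function.update_of_ne (show n ≠ n + 2 by omega),
        Function.update_of_ne (show n ≠ n + 1 by omega),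
        Function.update_of_ne (show n + 1 ≠ n + 2 by omega)]
      exact ⟨h1, h2, h3, subset_union_left, subset_union_right⟩
    · simpa only [Function.update_self, Function.update_of_ne (show g ≠ n + 2 by omega),
        Function.update_of_ne (show g ≠ n + 1 by omega), Function.update_of_ne (show g ≠ n by omega)]
        using hvg
    · simpa only [Function.update_self, Function.update_of_ne (show f ≠ n + 2 by omega),
        Function.update_of_ne (show f ≠ n + 1 by omega), Function.update_of_ne (show f ≠ n by omega)]
        using hvf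

theorem sat_fInter {n f g h : ℕ} (hf : f < n) (hg : g < n) (hh : h < n) (hvg : v g ⊆ M.E) :
    (fInter n f g h).Sat M v ↔ v f = v g ∩ v h := by
  simp only [fInter, Sat, Function.update_self, Function.update_of_ne hf.ne,
    Function.update_of_ne hg.ne, Function.update_of_ne hh.ne]
  constructor
  · rintro ⟨h1, h2, h3⟩
    exact subset_antisymm (subset_inter h1 h2)
      (h3 _ (inter_subset_left.trans hvg) ⟨inter_subset_left, inter_subset_right⟩)
  · intro h
    rw [h]
    exact ⟨inter_subset_left, inter_subset_right, fun X _ hX => subset_inter hX.1 hX.2⟩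

end eval

end Pool.Agent.TH424
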