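import Pool.Agent.TH424.MSOEval

set_option autoImplicit false

/-!
# The sentence, and its meaning
-/

namespace Pool.Agent.TH424

universe u

open MSFormula Set

variable {α : Type u}

/-- the condition on two circuits of a component (free variables `0`: the component, `1`, `2`: the
two end elements, `4`, `6`: the two flats) -/
def fPair : MSFormula :=
  and (imp (and (sub 1 4) (sub 1 6)) (or (sub 4 6) (sub 6 4)))
    (and (imp (and (sub 2 4) (sub 2 6)) (or (sub 4 6) (sub 6 4)))
      (imp (and (sub 1 4) (sub 2 6)) (or (fDisj 7 4 6) (fSubUnion 7 0 4 6))))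

/-- the condition on a flat (variable `4`) that contains neither of the end elements -/
def fInner : MSFormula :=
  imp (and (neg (sub 1 4)) (neg (sub 2 4)))
    (ex 5 (ex 6 (ex 7 (ex 8 (and (fCl 9 0 5 6) (and (fCl 9 0 7 8) (and (sub 1 6) (and (sub 2 8)
      (and (fInter 9 4 6 8) (and (fSubUnion 9 0 6 8) (fMod 9 6 8)))))))))))

/-- the condition on one circuit of a component -/
def fOne : MSFormula :=
  and (imp (and (sub 1 4) (sub 2 4)) (sub 0 4))
    (and (all 5 (all 6 (imp (fCl 7 0 5 6) fPair))) fInner)

/-- the sentence that characterises lattice path matroids -/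
def lpmSentence : MSFormula :=
  all 0 (imp (fComp 1 0) (ex 1 (ex 2 (and (fSing 3 1) (and (fSing 3 2) (and (sub 1 0) (and (sub 2 0)
    (all 3 (all 4 (imp (fCl 5 0 3 4) fOne))))))))))

set_option maxRecDepth 100000 in
theorem isSentence_lpmSentence : lpmSentence.IsSentence := by
  unfold IsSentence
  decide

/-- meaning of `fPair` -/
def PairC (K : Set α) (a b : α) (F F' : Set α) : Prop :=
  (a ∈ F → a ∈ F' → F ⊆ F' ∨ F' ⊆ F) ∧ (b ∈ F → b ∈ F' → F ⊆ F' ∨ F' ⊆ F) ∧
    (a ∈ F → b ∈ F' → Disjoint F F' ∨ K ⊆ F ∪ F')

/-- meaning of `fInner` -/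
def InnerC (M : Matroid α) (K : Set α) (a b : α) (F : Set α) : Prop :=
  a ∉ F → b ∉ F → ∃ C₁ F₁ C₂ F₂, Cl M K C₁ F₁ ∧ Cl M K C₂ F₂ ∧ a ∈ F₁ ∧ b ∈ F₂ ∧ F = F₁ ∩ F₂ ∧
    K ⊆ F₁ ∪ F₂ ∧ Modu M F₁ F₂

/-- the condition on a component `K` with end elements `a`, `b` -/
def GoodK (M : Matroid α) (K : Set α) (a b : α) : Prop :=
  ∀ C F, Cl M K C F → (a ∈ F → b ∈ F → K ⊆ F) ∧
    (∀ C' F', Cl M K C' F' → PairC K a b F F') ∧ InnerC M K a b F

/-- the meaning of the sentence -/
def Good (M : Matroid α) : Prop :=
  ∀ K, Comp M K → ∃ a ∈ K, ∃ b ∈ K, GoodK M K a b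

section eval

variable {M : Matroid α}

theorem sat_fPair (v : ℕ → Set α) {a b : α} (h1 : v 1 = {a}) (h2 : v 2 = {b}) (h0 : v 0 ⊆ M.E)
    (h4 : v 4 ⊆ M.E) : fPair.Sat M v ↔ PairC (v 0) a b (v 4) (v 6) := by
  unfold fPair PairC
  simp only [Sat.eq_4, Sat.eq_2, Sat.eq_6, Sat.eq_5]
  rw [sat_fDisj (by omega) (by omega) h4, sat_fSubUnion (by omega) (by omega) (by omega) h0]
  simp only [h1, h2, singleton_subset_iff, and_imp]

theorem cl_sub {K C F : Set α} (h : Cl M K C F) (hK : K ⊆ M.E) : F ⊆ M.E := by
  rw [h.2.2]; exact inter_subset_right.trans hK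

theorem sat_fInner (v : ℕ → Set α) {a b : α} (h1 : v 1 = {a}) (h2 : v 2 = {b}) (h0 : v 0 ⊆ M.E) :
    fInner.Sat M v ↔ InnerC M (v 0) a b (v 4) := by
  unfold fInner InnerC
  simp only [Sat.eq_6, Sat.eq_4, Sat.eq_3, Sat.eq_2, Sat.eq_7]
  simp only [h1, h2, singleton_subset_iff, and_imp]
  refine imp_congr_right fun _ => imp_congr_right fun _ => ?_
  constructor
  · rintro ⟨C₁, hC₁, F₁, hF₁, C₂, hC₂, F₂, hF₂, h⟩
    rw [sat_fCl (by omega) (by omega) (by omega) (by simpa [Function.update_apply] using h0)
        (by simpa [Function.update_apply] using hC₁),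
      sat_fCl (by omega) (by omega) (by omega) (by simpa [Function.update_apply] using h0)
        (by simpa [Function.update_apply] using hC₂),
      sat_fInter (by omega) (by omega) (by omega) (by simpa [Function.update_apply] using hF₁),
      sat_fSubUnion (by omega) (by omega) (by omega) (by simpa [Function.update_apply] using h0),
      sat_fMod (by omega) (by omega) (by simpa [Function.update_apply] using hF₁)
        (by simpa [Function.update_apply] using hF₂)] at h
    simp only [Function.update_apply] at h
    simp [h1, h2] at h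
    exact ⟨C₁, F₁, C₂, F₂, h⟩
  · rintro ⟨C₁, F₁, C₂, F₂, h⟩
    have hC₁ : C₁ ⊆ M.E := h.1.1.subset_ground
    have hC₂ : C₂ ⊆ M.E := h.2.1.1.subset_ground
    have hF₁ : F₁ ⊆ M.E := cl_sub h.1 h0
    have hF₂ : F₂ ⊆ M.E := cl_sub h.2.1 h0
    refine ⟨C₁, hC₁, F₁, hF₁, C₂, hC₂, F₂, hF₂, ?_⟩
    rw [sat_fCl (by omega) (by omega) (by omega) (by simpa [Function.update_apply] using h0)
        (by simpa [Function.update_apply] using hC₁),
      sat_fCl (by omega) (by omega) (by omega) (by simpa [Function.update_apply] using h0)
        (by simpa [Function.update_apply] using hC₂),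
      sat_fInter (by omega) (by omega) (by omega) (by simpa [Function.update_apply] using hF₁),
      sat_fSubUnion (by omega) (by omega) (by omega) (by simpa [Function.update_apply] using h0),
      sat_fMod (by omega) (by omega) (by simpa [Function.update_apply] using hF₁)
        (by simpa [Function.update_apply] using hF₂)]
    simp only [Function.update_apply]
    simpa [h1, h2] using h

theorem sat_fOne (v : ℕ → Set α) {a b : α} (h1 : v 1 = {a}) (h2 : v 2 = {b}) (h0 : v 0 ⊆ M.E)
    (h4 : v 4 ⊆ M.E) : fOne.Sat M v ↔ ((a ∈ v 4 → b ∈ v 4 → v 0 ⊆ v 4) ∧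
      (∀ C' F', Cl M (v 0) C' F' → PairC (v 0) a b (v 4) F') ∧ InnerC M (v 0) a b (v 4)) := by
  unfold fOne
  simp only [Sat.eq_6, Sat.eq_4, Sat.eq_2, Sat.eq_8]
  rw [sat_fInner v h1 h2 h0]
  simp only [h1, h2, singleton_subset_iff, and_imp]
  refine and_congr_right fun _ => and_congr_left fun _ => ?_
  constructor
  · intro h C' F' hCl
    have h3 := h C' hCl.1.subset_ground F' (cl_sub hCl h0)
    rw [sat_fCl (by omega) (by omega) (by omega) (by simpa [Function.update_apply] using h0)
        (by simpa [Function.update_apply] using hCl.1.subset_ground),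
      sat_fPair (a := a) (b := b) _ (by simpa [Function.update_apply] using h1)
        (by simpa [Function.update_apply] using h2) (by simpa [Function.update_apply] using h0)
        (by simpa [Function.update_apply] using h4)] at h3
    simp only [Function.update_apply] at h3
    simp at h3
    exact h3 hCl
  · intro h C' hC' F' hF'
    rw [sat_fCl (by omega) (by omega) (by omega) (by simpa [Function.update_apply] using h0)
        (by simpa [Function.update_apply] using hC'),
      sat_fPair (a := a) (b := b) _ (by simpa [Function.update_apply] using h1)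
        (by simpa [Function.update_apply] using h2) (by simpa [Function.update_apply] using h0)
        (by simpa [Function.update_apply] using h4)]
    simp only [Function.update_apply]
    simpa using h C' F'

/-- **The meaning of the sentence.** -/
theorem sat_lpmSentence (v : ℕ → Set α) : lpmSentence.Sat M v ↔ Good M := by
  unfold lpmSentence Good
  simp only [Sat.eq_8, Sat.eq_6, Sat.eq_7, Sat.eq_4, Sat.eq_2]
  constructor
  · intro h K hK
    have hKE := hK.1
    have h3 := h K hKE
    rw [sat_fComp (by omega) (by simpa using hKE)] at h3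
    simp only [Function.update_self] at h3
    obtain ⟨A, hA, B, hB, h4⟩ := h3 hK
    rw [sat_fSing (by omega) (by simpa [Function.update_apply] using hA),
      sat_fSing (by omega) (by simpa [Function.update_apply] using hB)] at h4
    obtain ⟨⟨a, ha⟩, ⟨b, hb⟩, haK, hbK, h5⟩ := h4
    simp only [Function.update_apply] at ha hb haK hbK
    simp at ha hb haK hbK
    subst ha; subst hb
    refine ⟨a, by simpa using haK, b, by simpa using hbK, ?_⟩
    intro C F hCl
    have h6 := h5 C hCl.1.subset_ground F (cl_sub hCl hKE)
    rw [sat_fCl (by omega) (by omega) (by omega) (by simpa [Function.update_apply] using hKE)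
        (by simpa [Function.update_apply] using hCl.1.subset_ground),
      sat_fOne (a := a) (b := b) _ (by simp [Function.update_apply])
        (by simp [Function.update_apply]) (by simpa [Function.update_apply] using hKE)
        (by simpa [Function.update_apply] using cl_sub hCl hKE)] at h6
    simp only [Function.update_apply] at h6
    simp at h6
    exact h6 hCl
  · intro h K hKE
    rw [sat_fComp (by omega) (by simpa using hKE)]
    simp only [Function.update_self]
    intro hK
    obtain ⟨a, ha, b, hb, hg⟩ := h K hK
    have haE : ({a} : Set α) ⊆ M.E := by simpa using hKE ha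
    have hbE : ({b} : Set α) ⊆ M.E := by simpa using hKE hb
    refine ⟨{a}, haE, {b}, hbE, ?_⟩
    rw [sat_fSing (by omega) (by simpa [Function.update_apply] using hKE ha),
      sat_fSing (by omega) (by simpa [Function.update_apply] using hKE hb)]
    refine ⟨⟨a, by simp [Function.update_apply]⟩, ⟨b, by simp⟩,
      by simpa [Function.update_apply] using ha, by simpa [Function.update_apply] using hb, ?_⟩
    intro C hC F hF
    rw [sat_fCl (by omega) (by omega) (by omega) (by simpa [Function.update_apply] using hKE)
        (by simpa [Function.update_apply] using hC),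
      sat_fOne (a := a) (b := b) _ (by simp [Function.update_apply])
        (by simp [Function.update_apply]) (by simpa [Function.update_apply] using hKE)
        (by simpa [Function.update_apply] using hF)]
    simp only [Function.update_apply]
    simpa using hg C F

theorem holds_lpmSentence (M : Matroid α) : lpmSentence.Holds M ↔ Good M := by
  constructor
  · intro h; exact (sat_lpmSentence (fun _ => ∅)).1 (h _ (fun _ => empty_subset _))
  · intro h v _; exact (sat_lpmSentence v).2 h

end eval

end Pool.Agent.TH424
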